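import Pool.Agent.Lib.MP_fe6d4f_gt.Pos.Core

/-!
Consequences of pseudocompactness inside `M`.
-/

namespace Pool.Agent.Lib.MP_fe6d4f_gt.Pos

open Function Filter Topology AddSubgroup Pool.Agent.Shared.InModel

theorem split {α : Type*} (w : α → ℚ) (l : List α) (hl : l ≠ []) (t : ℚ) (h0 : 0 ≤ t)
    (h1 : t ≤ (l.map w).sum) : ∃ l₁ a l₂, l = l₁ ++ a :: l₂ ∧ (l₁.map w).sum ≤ t ∧
      t ≤ (l₁.map w).sum + w a := by
  induction l generalizing t with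
  | nil => exact (hl rfl).elim
  | cons a l ih =>
    by_cases c : t ≤ w a
    · exact ⟨[], a, l, rfl, by simpa using h0, by simpa using c⟩
    · rw [List.map_cons, List.sum_cons] at h1
      obtain ⟨l₁, b, l₂, rfl, h2, h3⟩ := ih (by rintro rfl; exact c (by simpa using h1)) (t - w a)
        (by linarith) (by linarith)
      exact ⟨a :: l₁, b, l₂, rfl, by rw [List.map_cons, List.sum_cons]; constructor <;> linarith⟩

variable {M : ZFSet.{0}} [Mdl M] {G : Type 1} [AddCommGroup G] [Cd M G] [MG M G]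

/-- The neighbourhoods of zero of a pseudocompact group topology in `M`. -/
structure NS (N : PM M G → Prop) : Prop where
  mf : MF M N
  ne : ∃ V, N V
  zero : ∀ V, N V → 0 ∈ V
  sup : ∀ V W U, N V → N W → (∀ x ∈ V, x ∈ W → x ∈ U) → N U
  half : ∀ V, N V → ∃ W, N W ∧ ∀ a ∈ W, ∀ b ∈ W, a - b ∈ V
  t2 : ∀ x ≠ 0, ∃ V, N V ∧ x ∉ V
  pc : ∀ F : G → ℝ, (MF M fun p : G × ℚ => (p.2 : ℝ) < F p.1) →
    (∀ x, ∀ ε > 0, ∃ V, N V ∧ ∀ y, y - x ∈ V → |F y - F x| < ε) → ∃ n : ℕ, ∀ x, |F x| ≤ n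

namespace NS

variable {N : PM M G → Prop} (h : NS N)
include h

theorem third {V U : PM M G} (hV : N V) (hU : N U) : ∃ W, (N W ∧ ∀ a ∈ W, -a ∈ W) ∧
    (∀ a ∈ W, a ∈ U) ∧ ∀ a ∈ W, ∀ b ∈ W, ∀ c ∈ W, a + b + c ∈ V := by
  obtain ⟨A, a1, a2⟩ := h.half V hV
  obtain ⟨B, b1, b2⟩ := h.half A a1
  obtain ⟨C, c1, c2⟩ := h.half _ (h.sup B U (PM.of (fun x => x ∈ B ∧ x ∈ U) (by fun_prop)) b1 hU
    fun _ a b => ⟨a, b⟩)
  have o := h.zero C c1
  refine ⟨PM.of (fun x => (x ∈ B ∧ x ∈ U) ∧ -x ∈ B ∧ -x ∈ U) (by fun_prop),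
    ⟨h.sup C C _ c1 c1 fun x hx _ => ⟨by simpa using c2 x hx 0 o, by simpa using c2 0 o x hx⟩,
    fun a ha => ⟨ha.2, by simpa using ha.1⟩⟩, fun a ha => ha.1.2, fun a ha b hb c hc => ?_⟩
  simpa using a2 _ (b2 a ha.1.1 _ hb.2.1) _ (b2 _ hc.2.1 0 (h.zero B b1))

theorem nsm (m : ℕ) {V : PM M G} (hV : N V) : ∃ W, N W ∧ ∀ a ∈ W, m • a ∈ V := by
  induction m generalizing V with
  | zero => exact ⟨V, hV, fun _ _ => by simpa using h.zero V hV⟩
  | succ m ih =>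
    obtain ⟨A, a1, -, a2⟩ := h.third hV hV
    obtain ⟨B, b1, b2⟩ := ih a1.1
    exact ⟨PM.of (fun x => x ∈ A ∧ x ∈ B) (by fun_prop), h.sup A B _ a1.1 b1 fun _ a b => ⟨a, b⟩,
      fun a ha => by simpa [succ_nsmul] using a2 _ (b2 a ha.2) a ha.1 0 (h.zero A a1.1)⟩

variable [Chc M]

theorem acc (x : ℕ → G) (hx : MF M x) (U : ℕ → PM M G) (hU : MF M U) (h1 : ∀ k, N (U k)) :
    ∃ y, ∀ k n, ∃ m ≥ n, x m - y ∈ U k := by
  have := h.mf
  obtain ⟨V, v1, v2, v3⟩ := exists_chain (M := M) (P := fun V => N V ∧ ∀ a, a ∈ V → -a ∈ V)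
    (R := fun k V W => (∀ a, a ∈ W → a ∈ U k) ∧ ∀ a, a ∈ W → ∀ b, b ∈ W → ∀ c, c ∈ W → a + b + c ∈ V)
    (by fun_prop) (by fun_prop) (a := PM.of (fun _ => True) (by fun_prop))
    ⟨let ⟨V, hV⟩ := h.ne; h.sup V V _ hV hV fun _ _ _ => trivial, fun _ _ => trivial⟩
    fun k V hV => h.third hV.1 (h1 k)
  have v0 : ∀ k, 0 ∈ V k := fun k => h.zero _ (v3 k).1.1
  have v4 : Antitone fun k => (V k).set := antitone_nat_of_succ_le fun k a ha => by
    simpa [PM.mem_set] using (v3 k).2.2 a ha 0 (v0 _) 0 (v0 _)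
  let w : ℕ → ℚ := fun n => ((2 ^ n : ℕ) : ℚ)⁻¹
  have hw : MF M w := by simp only [w]; fun_prop
  have w0 : ∀ n, 0 < w n := fun n => by positivity
  have w1 : ∀ n, w (n + 1) = w n / 2 := fun n => by simp [w, pow_succ, div_eq_mul_inv, mul_comm]
  have w2 : Antitone w := antitone_nat_of_succ_le fun n => by linarith [w1 n, w0 n]
  have c0 : ∀ l : List (G × ℕ), 0 ≤ (l.map fun p => w p.2).sum := fun l =>
    List.sum_nonneg (List.forall_mem_map.2 fun p _ => (w0 _).le)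
  have key : ∀ (l : List (G × ℕ)) k, (∀ p ∈ l, p.1 ∈ V p.2) → (l.map fun p => w p.2).sum < w k →
      (l.map Prod.fst).sum ∈ V k := fun l => by
    induction e : l.length using Nat.strong_induction_on generalizing l with | _ n ih
    intro k a b
    by_cases c : l = []
    · simpa [c] using v0 k
    obtain ⟨l₁, p, l₂, rfl, d1, d2⟩ := split (fun p => w p.2) l c
      ((l.map fun p => w p.2).sum / 2) (by linarith [c0 l]) (by linarith [c0 l])
    simp only [List.map_append, List.map_cons, List.sum_append, List.sum_cons, List.length_append,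
      List.length_cons, List.forall_mem_append, List.forall_mem_cons] at e a b d1 d2 ⊢
    rw [← add_assoc]
    refine (v3 k).2.2 _ (ih _ (by omega) l₁ rfl _ a.1 (by linarith [w1 k])) _
      (v4 (Nat.succ_le_of_lt (not_le.1 fun f => ?_)) a.2.1) _ (ih _ (by omega) l₂ rfl _ a.2.2 (by linarith [w1 k]))
    linarith [w2 f, c0 l₁, c0 l₂]
  let C : G → ℚ → Prop := fun y c => ∃ n, ∃ l : List (G × ℕ), (∀ p, p ∈ l → p.1 ∈ V p.2) ∧
    (l.map fun p => p.1).sum = x n - y ∧ (l.map fun p => w p.2).sum + w n = c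
  have hC : MF M fun p : G × ℚ => C p.1 p.2 := by simp only [C]; fun_prop
  by_contra hc
  push Not at hc
  let ρ : G → ℝ := fun y => sInf ((↑) '' {c | C y c})
  have r1 : ∀ y, (((↑) : ℚ → ℝ) '' {c | C y c}).Nonempty := fun y =>
    ⟨_, _, ⟨0, [(x 0 - y, 0)], by simp [v2], by simp, rfl⟩, rfl⟩
  have r2 : ∀ y, ∃ δ : ℝ, 0 < δ ∧ δ ∈ lowerBounds ((↑) '' {c | C y c}) := fun y => by
    obtain ⟨k, n, hn⟩ := hc y
    refine ⟨min (w (k + 1)) (w n), by exact_mod_cast lt_min (w0 _) (w0 _), ?_⟩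
    rintro _ ⟨_, ⟨m, l, a, b, rfl⟩, rfl⟩
    refine mod_cast min_le_iff.2 ((le_total n m).imp (fun e => not_lt.1 fun f => hn m e
      ((v3 k).2.1 _ (b ▸ key l _ a (by linarith [w0 m])))) fun e => by linarith [w2 e, c0 l])
  have r3 : ∀ y c, C y c → ρ y ≤ c := fun y c e =>
    csInf_le (let ⟨δ, _, a⟩ := r2 y; ⟨δ, a⟩) ⟨c, e, rfl⟩
  have r4 : ∀ y, 0 < ρ y := fun y => let ⟨_, a, b⟩ := r2 y; a.trans_le (le_csInf (r1 y) b)
  have r5 : ∀ y y' k, y' - y ∈ V k → ρ y - w k ≤ ρ y' := fun y y' k e => le_csInf (r1 y') (by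
    rintro _ ⟨_, ⟨m, l, a, b, rfl⟩, rfl⟩
    have := r3 y _ ⟨m, (y' - y, k) :: l, List.forall_mem_cons.2 ⟨e, a⟩, by simp [b], rfl⟩
    simp only [List.map_cons, List.sum_cons] at this
    push_cast at this ⊢
    linarith)
  obtain ⟨n, hn⟩ := h.pc (fun y => (ρ y)⁻¹) (MF.of_iff (p := fun p : G × ℚ =>
      ∃ c, C p.1 c ∧ p.2 * c < 1) (by fun_prop) fun ⟨y, q⟩ => by
    rw [inv_eq_one_div, lt_div_iff₀ (r4 y)]
    rcases le_or_gt q 0 with e | e
    · obtain ⟨_, c, hc, rfl⟩ := r1 y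
      have e' : (q : ℝ) ≤ 0 := mod_cast e
      have : (0 : ℝ) < c := (r4 y).trans_le (r3 y c hc)
      exact iff_of_true (by nlinarith [r4 y]) ⟨c, hc, by
        have : (0 : ℚ) < c := mod_cast this
        nlinarith⟩
    · have e' : (0 : ℝ) < q := mod_cast e
      rw [← lt_div_iff₀' e', csInf_lt_iff (let ⟨δ, _, a⟩ := r2 y; ⟨δ, a⟩) (r1 y)]
      simp only [lt_div_iff₀' e']
      exact ⟨by rintro ⟨_, ⟨c, a, rfl⟩, b⟩; exact ⟨c, a, mod_cast b⟩,
        fun ⟨c, a, b⟩ => ⟨_, ⟨c, a, rfl⟩, mod_cast b⟩⟩) fun y ε hε => by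
    obtain ⟨δ, d1, d2⟩ := Metric.continuousAt_iff.1 (continuousAt_inv₀ (r4 y).ne') ε hε
    obtain ⟨k, hk⟩ := exists_pow_lt_of_lt_one d1 (one_half_lt_one (α := ℝ))
    have : (w k : ℝ) = (1 / 2) ^ k := by simp [w]
    refine ⟨V k, (v3 k).1.1, fun z hz => d2 (abs_sub_lt_iff.2 ?_)⟩
    constructor <;> linarith [r5 y z k hz, r5 z y k (by simpa using (v3 k).1.2 _ hz)]
  have := (inv_anti₀ (r4 _) (r3 (x n) _ ⟨n, [], by simp, by simp, rfl⟩)).trans
    ((le_abs_self _).trans (hn (x n)))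
  simp only [w, List.map_nil, List.sum_nil, zero_add, Rat.cast_inv, inv_inv, Rat.cast_natCast,
    Nat.cast_le] at this
  exact this.not_gt n.lt_two_pow_self

theorem pre {V : PM M G} (hV : N V) : ∃ l : List G, ∀ g, ∃ a ∈ l, g - a ∈ V := by
  by_contra c
  push Not at c
  obtain ⟨x, h1, h2⟩ := exists_seq (M := M) (R := fun a b => b - a ∉ V) (by fun_prop) c
  obtain ⟨W, w1, w2⟩ := h.half V hV
  obtain ⟨y, hy⟩ := h.acc x h1 (fun _ => W) (by fun_prop) fun _ => w1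
  obtain ⟨m, -, a⟩ := hy 0 0
  obtain ⟨n, b, c⟩ := hy 0 (m + 1)
  exact h2 m n b (by simpa using w2 _ c _ a)

theorem baire (S : ℕ → PM M G) (hS : MF M S) (h1 : ∀ g, ∃ n, g ∈ S n) :
    ∃ n x V, N V ∧ ∀ v ∈ V, ∀ W, N W → ∃ s ∈ S n, s - (x + v) ∈ W := by
  have := h.mf
  by_contra c
  push Not at c
  obtain ⟨V, hV⟩ := h.ne
  obtain ⟨p, p1, -, p2⟩ := exists_chain (M := M) (P := fun p : G × PM M G => N p.2)
    (R := fun n p q => (∀ a, a ∈ q.2 → q.1 - p.1 + a ∈ p.2) ∧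
      ∀ a, a ∈ q.2 → ∀ b, b ∈ q.2 → q.1 + (a - b) ∉ S n) (by fun_prop) (by fun_prop)
    (a := (0, V)) hV fun n p hp => by
      obtain ⟨A, a1, -, a2⟩ := h.third hp hp
      obtain ⟨v, v1, W, v2, v3⟩ := c n p.1 A a1.1
      obtain ⟨B, b1, b2⟩ := h.half W v2
      exact ⟨(p.1 + v, PM.of (fun x => x ∈ A ∧ x ∈ B) (by fun_prop)),
        h.sup A B _ a1.1 b1 fun _ a b => ⟨a, b⟩,
        fun a ha => by simpa using a2 v v1 a ha.1 0 (h.zero A a1.1),
        fun a ha b hb e => v3 _ e (by simpa using b2 a ha.2 b hb.2)⟩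
  have key : ∀ n m, n ≤ m → ∀ a ∈ (p m).2, (p m).1 - (p n).1 + a ∈ (p n).2 := fun n m e => by
    induction e with
    | refl => simp
    | step _ ih => exact fun a ha => by simpa [← add_assoc] using ih _ ((p2 _).2.1 a ha)
  obtain ⟨y, hy⟩ := h.acc (fun n => (p n).1) (by fun_prop) (fun n => (p n).2) (by fun_prop)
    fun n => (p2 n).1
  obtain ⟨n, hn⟩ := h1 y
  obtain ⟨m, a, b⟩ := hy (n + 1) (n + 1)
  exact (p2 n).2.2 _ (key _ _ a 0 (h.zero _ (p2 m).1)) _ b (by simpa using hn)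

theorem small (m : ℕ → ℕ) (hm : MF M m) (S : ℕ → PM M G) (hS : MF M S)
    (h1 : ∀ g, ∃ n, m n • g ∈ S n) : ∃ n, ∃ K : PM M G, Finite K.El ∧
      Le M (Qt M (⊥ : AddSubgroup G) (m n)).El (K.El × PM M (PM M (S n).El)) := by
  have := h.mf
  obtain ⟨n, x, V, hV, h2⟩ := h.baire (PM.lam (fun n g => m n • g ∈ S n) (by fun_prop))
    (MF.pmlam MF.id') h1
  obtain ⟨l, hl⟩ := h.pre hV
  have h3 : ∀ v ∈ V, ∀ W, N W → ∃ s ∈ S n, s - m n • (x + v) ∈ W := fun v hv W hW => by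
    obtain ⟨A, a1, a2⟩ := h.nsm (m n) hW
    obtain ⟨s, s1, s2⟩ := h2 v hv A a1
    exact ⟨_, s1, smul_sub (m n) s _ ▸ a2 _ s2⟩
  let K : PM M G := PM.of (fun a => a ∈ l) (by fun_prop)
  let c := PM.lam (M := M) (fun z (A : PM M (S n).El) => ∃ W, N W ∧ ∀ s : (S n).El,
    s.v - z ∈ W → s ∈ A) (by fun_prop)
  have hc : MF M c := MF.pmlam MF.id'
  refine ⟨n, K, l.finite_toSet, Le.of_rel (fun a p => ∃ g, qt M ⊥ (m n) g = a ∧ g - p.1.v ∈ V ∧
    c (m n • (x + (g - p.1.v))) = p.2) (by fun_prop) (fun a => ?_) ?_⟩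
  · obtain ⟨g, rfl⟩ := qt_surj a
    obtain ⟨a, a1, a2⟩ := hl g
    exact ⟨(K.mk' a a1, c (m n • (x + (g - a)))), g, rfl, a2, rfl⟩
  · rintro _ _ p ⟨g, rfl, -, a⟩ ⟨g', rfl, b, e⟩
    refine qt_eq.2 (mem_bot.2 (by_contra fun d => ?_))
    obtain ⟨U, u1, u2⟩ := h.t2 _ d
    obtain ⟨W, w1, w2⟩ := h.half U u1
    obtain ⟨W', w3, w4⟩ : PM.of (fun s : (S n).El => m n • (x + (g - p.1.v)) - s.v ∈ W)
        (by fun_prop) ∈ c (m n • (x + (g' - p.1.v))) := by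
      obtain ⟨A, a1, a2, -⟩ := h.third w1 w1
      rw [e, ← a]
      exact ⟨A, a1.1, fun s hs => a2 _ (by simpa using a1.2 _ hs)⟩
    obtain ⟨A, a1, a2, -⟩ := h.third w1 (h.sup W W' (PM.of (fun x => x ∈ W ∧ x ∈ W') (by fun_prop))
      w1 w3 fun _ a b => ⟨a, b⟩)
    obtain ⟨s, s1, s2⟩ := h3 _ b A a1.1
    simpa [u2, smul_sub] using w2 _ (w4 (PM.mk' _ s s1) (a2 _ s2).2) _ (a2 _ (a1.2 _ s2)).1

theorem small0 (m : ℕ → ℕ) (hm : MF M m) (z : ℕ → G) (hz : MF M z)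
    (h1 : ∀ g, ∃ n, m n • g = z n) : ∃ n, Finite (Qt M (⊥ : AddSubgroup G) (m n)).El := by
  let S := PM.lam (M := M) (fun n g => g = z n) (by fun_prop)
  obtain ⟨n, K, a, b⟩ := h.small m hm S (MF.pmlam MF.id') h1
  have f : ∀ (α : Type 1) [Cd M α] [Finite α], Finite (PM M α) := fun α _ _ =>
    Finite.of_injective PM.set fun _ _ => PM.ext
  have : Finite (S n).El := Set.finite_singleton (z n)
  have := f (S n).El
  have := f (PM M (S n).El)
  exact ⟨n, b.finite⟩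

theorem small1 {B : Type 1} [Cd M B] [Infinite B]
    (hB : ∀ (α : Type 1) [Cd M α], ¬ Le M B α → ¬ Le M B (PM M α)) (m : ℕ → ℕ) (hm : MF M m)
    (S : ℕ → PM M G) (hS : MF M S) (h1 : ∀ g, ∃ n, m n • g ∈ S n) (h2 : ∀ n, ¬ Le M B (S n).El) :
    ∃ n, ¬ Le M B (Qt M (⊥ : AddSubgroup G) (m n)).El :=
  let ⟨n, K, _, b⟩ := h.small m hm S hS h1
  ⟨n, fun e => not_le_prod (fun c => have := c.infinite; not_finite K.El) (hB _ (hB _ (h2 n)))
    (e.trans b)⟩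

theorem adm (gch : GCH M) : Adm M (⊥ : AddSubgroup G) := fun m hm => by
  by_cases c : Le M (Qt M (⊥ : AddSubgroup G) m).El ℕ
  · obtain ⟨y, y1, y2⟩ := exists_cov c
    exact Or.inl (h.small0 (fun _ => m) (by fun_prop) y y1
      fun g => (y2 g).imp fun _ e => sub_eq_zero.1 e).choose_spec
  have := infinite_of_not_le c
  refine Or.inr ⟨c, (pick gch _ c).resolve_right ?_⟩
  rintro ⟨R, r1, r2, r3, r4⟩
  obtain ⟨n, hn⟩ := h.small1 r4 (fun _ => m) (by fun_prop)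
    (PM.lam (fun n z => ∃ g, m • g = z ∧ qt M ⊥ m g ∈ R n) (by fun_prop)) (MF.pmlam MF.id')
    (fun g => (r2 (qt M ⊥ m g)).imp fun n e => ⟨g, rfl, e n le_rfl⟩) fun n e => r3 n (e.trans
      (Le.of_rel (fun z r => ∃ g, m • g = z.v ∧ qt M ⊥ m g = r.v) (by fun_prop)
        (fun z => let ⟨g, a, b⟩ := z.mem; ⟨PM.mk' _ _ b, g, a, rfl⟩)
        fun _ _ _ ⟨_, a, b⟩ ⟨_, c, d⟩ => PM.El.inj
          (a.symm.trans ((sub_eq_zero.1 (qt_eq.1 (b.trans d.symm))).trans c))))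
  exact hn Le.refl

theorem main (gch : GCH M) (kh : KH M) : Pp M (⊥ : AddSubgroup G) := by
  have hp : Pure (⊥ : AddSubgroup G) := fun k g e => ⟨0, zero_mem _, by rwa [smul_zero]⟩
  by_cases c : ∃ q, 0 < q ∧ ∀ g : G, q • g = 0
  · obtain ⟨q, q1, q2⟩ := c
    exact bdd_step kh q q1 ⊥ hp (h.adm gch) q2
  obtain ⟨B, -, -, b1, b2⟩ := exists_ind (H := (⊥ : AddSubgroup G)) (fun _ k => 0 ∣ k) (by fun_prop)
    (PM.of (M := M) (fun _ => True) (by fun_prop)) (by simp)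
    (PM.of (fun _ => False) (by fun_prop)) (fun _ => False.elim) fun _ => False.elim
  have b3 : ∀ g, ∃ k : ℕ, (k + 1) • g ∈ closure B.set := fun g => by
    rcases b2 g trivial with e | ⟨_ | k, e, e'⟩
    exacts [⟨0, by simpa using subset_closure e⟩, (e dvd_rfl).elim, ⟨k, by simpa using e'⟩]
  have b4 : ¬ Le M B.El ℕ := fun e => by
    obtain ⟨y, y1, y2⟩ := cl_le e
    obtain ⟨n, hn⟩ := h.small0 (fun n => n.unpair.1 + 1) (by fun_prop) (fun n => y n.unpair.2)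
      (by fun_prop) fun g => by
        obtain ⟨k, hk⟩ := b3 g
        obtain ⟨j, hj⟩ := y2 _ hk
        exact ⟨Nat.pair k j, by simp [hj]⟩
    exact c (Qt_bdd (M := M) (Nat.succ_pos n.unpair.1))
  have := infinite_of_not_le b4
  rcases pick gch _ b4 with e | ⟨R, r1, r2, r3, r4⟩
  · have : Infinite (PM M B.El) := Le.sing.infinite
    have : Infinite (PM M (PM M B.El)) := Le.sing.infinite
    obtain ⟨n, K, k1, k2⟩ := h.small (fun n => n + 1) (by fun_prop)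
      (fun _ => PM.of (fun g => g ∈ closure B.set) (by fun_prop)) (by fun_prop) b3
    obtain ⟨y, y1, y2⟩ := cl_le (Le.refl (α := B.El))
    exact big_step kh ⟨b4, e⟩ hp (h.adm gch) zero_ne_one (by simp) PM.El.v (MF.v MF.id') PM.El.inj
      (by simp) (b1.mono fun _ ⟨a, e⟩ => e ▸ a.mem) n.succ_pos
      (k2.trans (Le.of_finite.pr (Le.of_cover y y1 y2).pm.pm))
      fun K _ => bdd_step kh _ n.succ_pos K
  let T := PM.lam (M := M) (fun n (g : G) => ∃ b, b ∈ R n ∧ b.v = g) (by fun_prop)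
  have hT : MF M T := MF.pmlam MF.id'
  obtain ⟨n, hn⟩ := h.small1 r4 Nat.factorial (by fun_prop)
    (PM.lam (fun n g => g ∈ closure (T n).set) (by fun_prop)) (MF.pmlam MF.id') (fun g => by
      obtain ⟨k, hk⟩ := b3 g
      obtain ⟨F, f1, f2⟩ := fin_cl hk
      obtain ⟨n, n1, n2⟩ := ((eventually_ge_atTop (k + 1)).and ((eventually_all_finset F).2
        fun b hb => (eventually_atTop.2 (r2 (B.mk' b (f1 hb)))).mono
          fun n e => (⟨_, e, rfl⟩ : b ∈ T n))).exists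
      obtain ⟨d, hd⟩ := Nat.dvd_factorial k.succ_pos n1
      exact ⟨n, by rw [hd, mul_comm, mul_smul]; exact nsmul_mem (closure_mono n2 f2) d⟩)
    fun n e => by
      have : Infinite (ℕ × Option (R n).El) := Le.left.infinite (M := M)
      obtain ⟨y, y1, y2⟩ := cl_le (s := T n) (α := ℕ × Option (R n).El)
        ((Le.of_cover (fun b : (R n).El => b.v.v) (by fun_prop) fun _ hb =>
          let ⟨b, b1, b2⟩ := PM.mem_lam.1 hb; ⟨PM.mk' _ b b1, b2⟩).trans (Le.trans ⟨some, by fun_prop, Option.some_injective _⟩ Le.right))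
      exact not_le_prod b4 (not_le_opt (r3 n)) (e.trans (Le.of_cover y y1 y2))
  exact (hn (le_Qt PM.El.v (MF.v MF.id') fun a b e => PM.El.inj (b1.eq a.mem b.mem
    (by simpa using n.factorial_ne_zero) e))).elim

end NS

end Pool.Agent.Lib.MP_fe6d4f_gt.Pos
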