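import Pool.Agent.Lib.MP_fe6d4f_gt.Pos.Space

/-!
Separating families of characters with a dense sequentially compact set.
-/

namespace Pool.Agent.Lib.MP_fe6d4f_gt.Pos

open Function Filter Topology AddSubgroup Pool.Agent.Shared.InModel

variable {M : ZFSet.{0}} [Mdl M] {G : Type 1} [AddCommGroup G] [Cd M G] [MG M G]

/-- Characters `Φ` of `G / H` separating the points of `K / H`, with a dense sequentially compact
set `D`. -/
structure Nice (H K : AddSubgroup G) (Φ : PM M (FM M G (TM M))) (D : PM M G) : Prop where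
  hm : ∀ φ ∈ Φ, Hm φ
  van : ∀ φ ∈ Φ, ∀ x ∈ H, φ.fn x = 0
  sep : ∀ g ∈ K, (∀ φ ∈ Φ, φ.fn g = 0) → g ∈ H
  sub : ∀ d ∈ D, d ∈ K
  dis : ∀ x ∈ closure D.set, x ∈ H → x = 0
  dns : ∀ (g : G) (l : List (FM M G (TM M))), (∀ φ ∈ l, φ ∈ Φ) → ∀ ε > (0 : ℝ),
    ∃ d ∈ D, ∀ φ ∈ l, ‖φ.fn d - φ.fn g‖ < ε
  seq : ∀ x : ℕ → G, MF M x → (∀ n, x n ∈ D) → ∃ y ∈ D, ∃ φ : ℕ → ℕ, StrictMono φ ∧ MF M φ ∧
    ∀ ψ ∈ Φ, Tendsto (fun n => ψ.fn (x (φ n))) atTop (𝓝 (ψ.fn y))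

/-- The property proved by induction. -/
def Pp (M : ZFSet.{0}) [Mdl M] [Cd M G] (H : AddSubgroup G) : Prop :=
  ∃ (Φ : PM M (FM M G (TM M))) (D : PM M G), Nice H ⊤ Φ D

variable {H K : AddSubgroup G}

theorem Pp.top (h : ∀ g, g ∈ H) : Pp M H :=
  ⟨PM.of (fun _ => False) (by fun_prop), PM.of (fun x => x = 0) (by fun_prop), fun _ => False.elim,
    fun _ => False.elim, fun g _ _ => h g, fun _ _ => trivial,
    fun x hx _ => mem_bot.1 ((closure_le ⊥).2 (fun _ h => h) hx),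
    fun _ _ hl _ _ => ⟨0, rfl, fun φ h => (hl φ h).elim⟩,
    fun _ _ _ => ⟨0, rfl, id, strictMono_id, MF.id', fun _ => False.elim⟩⟩

theorem cap {D : Set G} (hle : H ≤ K) (dis : ∀ x ∈ closure D, x ∈ K → x = 0) {x : G} (hx : x ∈ K)
    (h : x ∈ H ⊔ closure D) : x ∈ H := by
  obtain ⟨a, ha, b, hb, rfl⟩ := mem_sup.1 h
  rwa [dis b hb (by simpa using sub_mem hx (hle ha)), add_zero]

variable [Chc M]

theorem Pp.glue (hle : H ≤ K) (h : Pp M K) (h' : ∀ D : PM M G, (∀ x ∈ closure D.set, x ∈ K → x = 0) →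
    ∃ Ψ E, Nice (M := M) H K Ψ E ∧ ∀ ψ ∈ Ψ, ∀ d ∈ D, ψ.fn d = 0) : Pp M H := by
  classical
  obtain ⟨Φ, D, a⟩ := h
  obtain ⟨Ψ, E, b, c⟩ := h' D a.dis
  have h1 : ∀ φ ∈ Φ, ∀ d, ∀ e ∈ E, φ.fn (d + e) = φ.fn d := fun φ h d e he => by
    rw [a.hm φ h, a.van φ h e (b.sub e he), add_zero]
  have h2 : ∀ φ ∈ Ψ, ∀ d ∈ D, ∀ e, φ.fn (d + e) = φ.fn e := fun φ h d hd e => by
    rw [b.hm φ h, c φ h d hd, zero_add]
  refine ⟨PM.of (fun φ => φ ∈ Φ ∨ φ ∈ Ψ) (by fun_prop),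
    PM.of (fun x => ∃ p : G × G, p.1 ∈ D ∧ p.2 ∈ E ∧ p.1 + p.2 = x) (by fun_prop),
    fun φ h => h.elim (a.hm φ) (b.hm φ),
    fun φ h x hx => h.elim (fun h => a.van φ h x (hle hx)) fun h => b.van φ h x hx,
    fun g _ h => b.sep g (a.sep g trivial fun φ e => h φ (Or.inl e)) fun φ e => h φ (Or.inr e),
    fun _ _ => trivial, fun x hx e => ?_, fun g l hl ε hε => ?_, fun x hx hD => ?_⟩
  · have : x ∈ closure D.set ⊔ closure E.set := (closure_le _).2 (by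
      rintro _ ⟨p, p1, p2, rfl⟩
      exact add_mem_sup (subset_closure p1) (subset_closure p2)) hx
    obtain ⟨y, hy, z, hz, rfl⟩ := mem_sup.1 this
    have h3 := a.dis y hy (by simpa using sub_mem (hle e) ((closure_le K).2 b.sub hz))
    rw [h3, zero_add] at e ⊢
    exact b.dis z hz e
  · obtain ⟨d, d1, d2⟩ := a.dns g (l.filter (· ∈ Φ)) (by simp) ε hε
    obtain ⟨e, e1, e2⟩ := b.dns g (l.filter (· ∈ Ψ)) (by simp) ε hε
    refine ⟨d + e, ⟨(d, e), d1, e1, rfl⟩, fun φ h => (hl φ h).elim (fun k => ?_) fun k => ?_⟩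
    · rw [h1 φ k d e e1]; exact d2 φ (by simp [h, k])
    · rw [h2 φ k d d1]; exact e2 φ (by simp [h, k])
  · obtain ⟨p, p1, p2⟩ := choice (M := M) (R := fun n (p : G × G) =>
      p.1 ∈ D ∧ p.2 ∈ E ∧ p.1 + p.2 = x n) (by fun_prop) hD
    obtain ⟨e, e1, φ, e2, e3, e4⟩ := b.seq (fun n => (p n).2) (by fun_prop) fun n => (p2 n).2.1
    obtain ⟨d, d1, ψ, d2, d3, d4⟩ := a.seq (fun n => (p (φ n)).1) (by fun_prop) fun n => (p2 _).1
    refine ⟨d + e, ⟨(d, e), d1, e1, rfl⟩, fun n => φ (ψ n), e2.comp d2, by fun_prop,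
      fun χ h => h.elim (fun k => ?_) fun k => ?_⟩
    · simpa only [← fun n => (p2 n).2.2, h1 χ k _ _ e1, fun n => h1 χ k (p n).1 _ (p2 n).2.1]
        using d4 χ k
    · simpa only [← fun n => (p2 n).2.2, h2 χ k _ d1, fun n => h2 χ k _ (p2 n).1, comp_def]
        using (e4 χ k).comp d2.tendsto_atTop

variable [MS M H]

theorem cyc_piece {q : ℕ} (hq : 0 < q) (h1 : ∀ g, q • g ∈ H) {a : G} (h2 : q • a = 0)
    (ha : ∀ k : ℕ, k • a ∈ H → q ∣ k) (D : PM M G)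
    (dis : ∀ x ∈ closure D.set, x ∈ H ⊔ closure {a} → x = 0) :
    ∃ Ψ E, Nice (M := M) H (H ⊔ closure {a}) Ψ E ∧ ∀ ψ ∈ Ψ, ∀ d ∈ D, ψ.fn d = 0 := by
  have h3 : ∀ k : ℕ, k • a ∈ closure {a} := fun k => nsmul_mem (subset_closure (Set.mem_singleton a)) k
  obtain ⟨χ, c1, c2, c3⟩ := exists_ext (H := H ⊔ closure D.set)
    (S := PM.of (fun x => x = a) (by fun_prop))
    (fun s hs k hk => by simpa [PM.of, show s = a from hs] using hk) (fun _ => un M q) (by fun_prop)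
    (by
      rintro _ rfl k hk
      exact addOrderOf_dvd_iff_nsmul_eq_zero.1
        ((un_ord (M := M) hq).symm ▸ ha k (cap le_sup_left dis (mem_sup_right (h3 k)) hk)))
  have h4 : ∀ j : ℤ, (q : ℤ) ∣ j → j • a = 0 := by
    rintro _ ⟨c, rfl⟩; rw [mul_comm, mul_smul, natCast_zsmul, h2, smul_zero]
  have h5 : ∀ x ∈ H, c1.hom x = 0 := fun x hx => c2 x (mem_sup_left hx)
  have h6 : c1.hom a = un M q := c3 a rfl
  refine ⟨PM.of (fun φ => φ = χ) (by fun_prop), PM.of (fun x => ∃ k : ℕ, k < q ∧ k • a = x)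
    (by fun_prop), ⟨by rintro _ rfl; exact c1, by rintro _ rfl; exact h5, fun g hg e => ?_,
    by rintro _ ⟨k, -, rfl⟩; exact mem_sup_right (h3 k), fun x hx e => ?_,
    fun g l hl ε hε => ?_, fun x hx hD => ?_⟩,
    by rintro _ rfl d hd; exact c2 d (mem_sup_right (subset_closure hd))⟩
  · obtain ⟨y, hy, z, hz, rfl⟩ := mem_sup.1 hg
    obtain ⟨j, rfl⟩ := mem_closure_singleton.1 hz
    have : c1.hom (y + j • a) = 0 := e χ rfl
    rw [map_add, h5 y hy, zero_add, map_zsmul, h6, ← addOrderOf_dvd_iff_zsmul_eq_zero,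
      un_ord hq] at this
    rwa [h4 j this, add_zero]
  · obtain ⟨j, rfl⟩ := mem_closure_singleton.1
      ((closure_le (closure {a})).2 (by rintro _ ⟨k, -, rfl⟩; exact h3 k) hx)
    exact h4 j (Int.natCast_dvd.2 (ha _ (natAbs_mem.2 e)))
  · obtain ⟨j, j1, j2⟩ := exists_un hq ((map_nsmul c1.hom q g).symm.trans (h5 _ (h1 g)))
    refine ⟨j • a, ⟨j, j1, rfl⟩, fun φ h => ?_⟩
    rw [show φ = χ from hl φ h]
    change ‖c1.hom _ - c1.hom _‖ < ε
    rwa [map_nsmul, h6, j2, sub_self, norm_zero]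
  · obtain ⟨φ, f1, f2, f3⟩ := exists_sub (M := M) Le.refl (fun c n => c • a = x n) (by fun_prop)
    obtain ⟨c, c4, c5⟩ : ∃ c < q, ∀ᶠ n in atTop, c • a = x (φ n) := by
      by_contra c
      obtain ⟨n, hn⟩ := ((eventually_all_finset (Finset.range q)).2 fun k hk =>
        (f3 k).resolve_left fun e => c ⟨k, Finset.mem_range.1 hk, e⟩).exists
      obtain ⟨k, k1, k2⟩ := hD (φ n)
      exact hn k (Finset.mem_range.2 k1) k2
    exact ⟨_, ⟨c, c4, rfl⟩, φ, f1, f2, fun ψ _ =>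
      tendsto_const_nhds.congr' (c5.mono fun n e => by rw [e])⟩

omit [Chc M] [MS M H] [Cd M G] [MG M G] in
theorem exists_ord {s : G} {j : ℤ} (h : j • s ∉ H) :
    ∃ n, (∀ k : ℕ, k • s ∈ H → k • un M n = 0) ∧ j • un M n ≠ 0 := by
  have h1 : ∀ j : ℤ, j • s ∈ H ↔ (addOrderOf (s : G ⧸ H) : ℤ) ∣ j := fun j => by
    rw [addOrderOf_dvd_iff_zsmul_eq_zero, ← QuotientAddGroup.eq_zero_iff]; rfl
  have h2 : ∀ k : ℕ, k • s ∈ H → addOrderOf (s : G ⧸ H) ∣ k := fun k hk =>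
    Int.natCast_dvd_natCast.1 ((h1 k).1 (by rwa [natCast_zsmul]))
  simp only [Ne, ← addOrderOf_dvd_iff_zsmul_eq_zero, ← addOrderOf_dvd_iff_nsmul_eq_zero]
  rcases (addOrderOf (s : G ⧸ H)).eq_zero_or_pos with e | e
  · refine ⟨j.natAbs + 1, fun k hk => by simp [zero_dvd_iff.1 (e ▸ h2 k hk)], fun c => h ?_⟩
    rw [un_ord (Nat.succ_pos _), Int.natCast_dvd] at c
    simp [Int.natAbs_eq_zero.1 (Nat.eq_zero_of_dvd_of_lt c (Nat.lt_succ_self _))]
  · exact ⟨_, by rwa [un_ord e], by rwa [un_ord e, ← h1]⟩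

theorem big_piece (kh : KH M) {Λ : Type 1} [Cd M Λ] (hΛ : Good M Λ) [MS M K] (hle : H ≤ K)
    (y : PM M (PM M Λ) → G) (hy : MF M y) (cov : ∀ h ∈ K, ∃ c, h - y c ∈ H) {q : ℕ} (hq : q ≠ 1)
    (h1 : ∀ g, q • g ∈ H) (e : Λ → G) (he : MF M e) (inj : Injective e) (h2 : ∀ a, e a ∈ K)
    (h3 : ∀ a, q • e a = 0) (h4 : Ind H (fun _ k => q ∣ k) (Set.range e)) (D : PM M G)
    (dis : ∀ x ∈ closure D.set, x ∈ K → x = 0) :
    ∃ Ψ E, Nice (M := M) H K Ψ E ∧ ∀ ψ ∈ Ψ, ∀ d ∈ D, ψ.fn d = 0 := by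
  classical
  have := infinite_of_not_le hΛ.1
  have : Infinite (PM M Λ) := Le.sing.infinite
  have : Infinite (PM M (PM M Λ)) := Le.sing.infinite
  obtain ⟨Y, ⟨i, i1, i2⟩, off, dns, seq⟩ := exists_space kh Λ hΛ
  let E : PM M G := PM.of (fun g => ∃ b, e (i b) = g) (by fun_prop)
  have E1 : Ind H (fun _ k => q ∣ k) E.set := h4.mono fun _ ⟨b, h⟩ => ⟨_, h⟩
  have E2 : ∀ s ∈ E, ∀ k, k • s ∈ H ↔ q ∣ k := fun s hs k =>
    ⟨fun h => E1 s hs k (mem_sup_left h), by rintro ⟨c, rfl⟩; rw [mul_smul]; exact h1 _⟩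
  have E3 : Ind H (fun s k => k • s ∈ H) E.set := fun s hs k hk => (E2 s hs k).2 (E1 s hs k hk)
  obtain ⟨S, S1, S2, S3, S4⟩ := exists_ind (H := H) (fun s k => k • s ∈ H) (by fun_prop)
    (PM.of (fun a => a ∈ K ∧ a ∉ H) (by fun_prop)) (fun _ _ _ => id) E
    (fun s hs => ⟨let ⟨b, h⟩ := hs; h ▸ h2 _, fun c =>
      hq (Nat.dvd_one.1 ((E2 s hs 1).1 (by rwa [one_smul])))⟩) E3
  obtain ⟨z, z1, z2⟩ := choice' (M := M) (R := fun g c => g - y c ∈ H) (by fun_prop)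
  let o := FM.lam (M := M) (fun g (j : PM M Λ × Λ × ℕ) =>
    if j.2.2 = 0 then false else if j.2.2 = 1 then true else decide (j.1 ∈ z g)) (by fun_prop)
  have ho : MF M o := MF.fmlam MF.id'
  obtain ⟨κ, k1, k2⟩ := choice (M := M) (R := fun g b => (∃ c : Y.El, e (i c) = g ∧ c.v = b) ∨
      (g ∉ E ∧ o g = b)) (by fun_prop) fun g => by
    by_cases c : g ∈ E
    exacts [let ⟨b, h⟩ := c; ⟨_, Or.inl ⟨b, h, rfl⟩⟩, ⟨_, Or.inr ⟨c, rfl⟩⟩]
  have k3 : ∀ b, κ (e (i b)) = b.v := fun b => by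
    rcases k2 (e (i b)) with ⟨c, c1, c2⟩ | c
    exacts [by rw [← c2, i2 (inj c1)], (c.1 ⟨b, rfl⟩).elim]
  have k4 : ∀ g ∉ E, κ g = o g := fun g h =>
    ((k2 g).resolve_left fun ⟨c, c1, _⟩ => h ⟨c, c1⟩).2.symm
  have k5 : ∀ g ∈ E, κ g ∈ Y := by rintro _ ⟨b, rfl⟩; rw [k3]; exact b.mem
  have k6 : ∀ s ∈ E, ∀ t ∉ E, κ s ≠ κ t := fun s hs t ht c => by
    obtain ⟨ξ, h⟩ := off [κ s] (by simpa using k5 s hs)
    simpa [c, k4 t ht, o] using h (κ s) (by simp) (Classical.arbitrary _) 1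
  have k7 : ∀ s ∈ S, ∀ t ∈ S, κ s = κ t → s = t := fun s hs t ht c => by
    by_cases a : s ∈ E <;> by_cases b : t ∈ E
    · obtain ⟨a, rfl⟩ := a
      obtain ⟨b, rfl⟩ := b
      rw [k3, k3] at c
      rw [PM.El.inj c]
    · exact (k6 s a t b c).elim
    · exact (k6 t b s a c.symm).elim
    · have : z s = z t := PM.ext' fun X => by
        simpa [k4 s a, k4 t b, o] using congrArg (·.fn (X, Classical.arbitrary _, 2)) c
      refine S3.eq hs ht (k := 1) (by simpa using (S2 s hs).2) ?_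
      simpa [this] using sub_mem (z2 s (cov s (S2 s hs).1)) (z2 t (cov t (S2 t ht).1))
  obtain ⟨σ, s1, s2⟩ := (Le.nat.pr (((Le.refl (M := M) (α := PM M Λ)).pr
    (Le.sing.pr Le.nat)).pr (Le.bool.trans Le.nat)).li).surj
  obtain ⟨t, t1, t2, t3, t4⟩ := exists_tq M q
  let tl := FM.lam (M := M) (fun (p : FM M (PM M Λ × Λ × ℕ) Bool × PM M Λ × Λ) n =>
    p.1.fn (p.2.1, p.2.2, n + 1)) (by fun_prop)
  have htl : MF M tl := MF.fmlam MF.id'
  let f : PM M Λ × Λ → G → TM M := fun p s => if (κ s).fn (p.1, p.2, 0) = true then t (tl (κ s, p))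
    else if (∀ c, c ∈ (σ p.1).2 → (κ s).fn c.1 = c.2) ∧ ∀ k : ℕ, k • s ∈ H → k • un M (σ p.1).1 = 0
      then un M (σ p.1).1 else 0
  have hf : MF M fun p : (PM M Λ × Λ) × G => f p.1 p.2 := by simp only [f]; fun_prop
  have hm : MF M (Hm (M := M) (G := G)) := by unfold Hm; fun_prop
  obtain ⟨χ, c1, c2⟩ := choice (M := M) (R := fun p (φ : FM M G (TM M)) => Hm φ ∧
      (∀ x, x ∈ H ⊔ closure D.set → φ.fn x = 0) ∧ ∀ s, s ∈ S → φ.fn s = f p s) (by fun_prop)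
    fun p => exists_ext (fun s hs k hk => by
      rw [sup_right_comm] at hk
      have a : H ⊔ closure (S.set \ {s}) ≤ K :=
        sup_le hle ((closure_le K).2 fun x hx => (S2 x hx.1).1)
      exact mem_sup_left (S3 s hs k (cap a dis (nsmul_mem (S2 s hs).1 k) hk))) (f p) (by fun_prop)
      fun s hs k hk => by
        have a := cap hle dis (nsmul_mem (S2 s hs).1 k) hk
        simp only [f]
        split_ifs with b c
        · obtain ⟨d, rfl⟩ := (E2 s (by_contra fun c => by simp [k4 s c, o] at b) k).1 a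
          rw [mul_comm, mul_smul, t2, smul_zero]
        · exact c.2 k a
        · exact smul_zero k
  have c3 : ∀ p, ∀ x ∈ H, (χ p).fn x = 0 := fun p x hx => (c2 p).2.1 x (mem_sup_left hx)
  refine ⟨PM.of (fun φ => ∃ p, χ p = φ) (by fun_prop), E, ⟨by rintro _ ⟨p, rfl⟩; exact (c2 p).1,
    by rintro _ ⟨p, rfl⟩; exact c3 p, fun g hg h => by_contra fun hn => ?_,
    fun d hd => (S2 d (S1 d hd)).1, fun x hx h => ?_, fun g l hl ε hε => ?_, fun x hx hD => ?_⟩,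
    by rintro _ ⟨p, rfl⟩ d hd; exact (c2 p).2.1 d (mem_sup_right (subset_closure hd))⟩
  · obtain ⟨k, a1, a2⟩ : ∃ k : ℕ, k • g ∉ H ∧ k • g ∈ H ⊔ closure S.set :=
      (S4 g ⟨hg, hn⟩).elim (fun a => ⟨1, by rwa [one_smul], by
        rw [one_smul]; exact mem_sup_right (subset_closure a)⟩) id
    obtain ⟨F, a3, s, a4, j, a5, a6, a7⟩ := sep_elt a2 a1
    obtain ⟨n, a8, a9⟩ := exists_ord (M := M) a6
    have : ∀ r, ∃ c, r ∈ F → (κ r).fn c ≠ (κ s).fn c := fun r => by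
      by_contra c
      push Not at c
      exact a5 (k7 r (a3 (c (Classical.arbitrary _)).1) s a4 (FM.ext (funext fun j => (c j).2)) ▸
        (c (Classical.arbitrary _)).1)
    choose c hc using this
    obtain ⟨X, hX⟩ := s2 (n, F.toList.map fun r => (c r, (κ s).fn (c r)))
    obtain ⟨ξ, hξ⟩ := off (((s :: F.toList).filter (· ∈ E)).map κ)
      (List.forall_mem_map.2 fun r hr => k5 r (by simpa using (List.mem_filter.1 hr).2))
    have b1 : ∀ r ∈ s :: F.toList, ¬ (κ r).fn (X, ξ, 0) = true := fun r hr => by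
      by_cases b : r ∈ E
      · simp [hξ _ (List.mem_map_of_mem (List.mem_filter.2 ⟨hr, by simpa using b⟩))]
      · simp [k4 r b, o]
    have b2 : (c2 (X, ξ)).1.hom s = un M n := ((c2 _).2.2 s a4).trans (by
      simp only [f, hX]
      rw [if_neg (b1 s List.mem_cons_self), if_pos ⟨List.forall_mem_map.2 fun _ _ => rfl, a8⟩])
    have b3 : H ⊔ closure (F : Set G) ≤ (c2 (X, ξ)).1.hom.ker :=
      sup_le (c3 _) ((closure_le _).2 fun r hr => ((c2 _).2.2 r (a3 hr)).trans (by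
        have := Finset.mem_toList.2 (Finset.mem_coe.1 hr)
        simp only [f, hX]
        rw [if_neg (b1 r (List.mem_cons_of_mem _ this)),
          if_neg fun b => hc r hr (b.1 _ (List.mem_map_of_mem this))]))
    have b4 : (c2 (X, ξ)).1.hom g = 0 := h _ ⟨_, rfl⟩
    simpa [b2, b4, a9] using b3 a7
  · refine ind_graph E3 id (fun s hs k hk => ?_) (x, x) ((closure_le ((closure _).comap
      ((AddMonoidHom.id G).prod (AddMonoidHom.id G)))).2
      (fun s hs => subset_closure (k := _ '' _) ⟨s, hs, rfl⟩) hx) h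
    obtain ⟨d, rfl⟩ := (E2 s hs k).1 hk
    obtain ⟨b, rfl⟩ := hs
    rw [mul_comm, mul_smul, id, h3, smul_zero]
  · choose b hb using fun p => t3 ((χ p).fn g)
      ((map_nsmul (c2 p).1.hom q g).symm.trans (c3 p _ (h1 g))) ε hε
    choose p hp using hl
    obtain ⟨w, w1, w2⟩ := dns (l.pmap p fun _ h => h) fun p =>
      ⟨fun n => if n = 0 then true else (b p).fn (n - 1), by fun_prop⟩
    refine ⟨e (i (Y.mk' w w1)), ⟨_, rfl⟩, fun φ h => ?_⟩
    have w3 := w2 _ (List.mem_pmap.2 ⟨φ, h, rfl⟩)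
    rw [← hp φ h, (c2 _).2.2 _ (S1 _ ⟨_, rfl⟩)]
    simp only [f, k3, PM.v_mk']
    rw [if_pos (show w.fn ((p φ h).1, (p φ h).2, 0) = true from w3 0), show tl (w, p φ h) = b (p φ h) from FM.ext (funext fun n => w3 (n + 1))]
    exact hb _
  · obtain ⟨w, w1, φ, f1, f2, f3⟩ := seq (fun n => κ (x n)) (by fun_prop) fun n => k5 _ (hD n)
    have w2 : e (i (Y.mk' w w1)) ∈ E := ⟨_, rfl⟩
    refine ⟨_, w2, φ, f1, f2, ?_⟩
    rintro _ ⟨p, rfl⟩
    simp only [(c2 p).2.2 _ (S1 _ w2), fun n => (c2 p).2.2 _ (S1 _ (hD n)), f, k3, PM.v_mk',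
      E2 _ w2, fun n => E2 _ (hD n)]
    by_cases c : w.fn (p.1, p.2, 0) = true
    · rw [if_pos c]
      exact (t4 (fun n => tl (κ (x (φ n)), p)) (tl (w, p)) fun n => f3 (p.1, p.2, n + 1)).congr'
        ((f3 (p.1, p.2, 0)).mono fun n a => (if_pos (a.trans c)).symm)
    · refine tendsto_const_nhds.congr' (((f3 (p.1, p.2, 0)).and
        ((eventually_all_finite (σ p.1).2.finite_toSet).2 fun j _ => f3 j.1)).mono fun n a => ?_)
      simp only [a.1, if_neg c]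
      exact if_congr (and_congr_left fun _ => forall₂_congr fun j b => by rw [a.2 j b]) rfl rfl

theorem big_step (kh : KH M) {Λ : Type 1} [Cd M Λ] (hΛ : Good M Λ) (hp : Pure H) (ha : Adm M H)
    {q : ℕ} (hq : q ≠ 1) (h1 : ∀ g, q • g ∈ H) (e : Λ → G) (he : MF M e) (inj : Injective e)
    (h3 : ∀ a, q • e a = 0) (h4 : Ind H (fun _ k => q ∣ k) (Set.range e)) {m : ℕ} (hm : 0 < m)
    (h5 : Le M (Qt M H m).El (PM M (PM M Λ)))
    (ih : ∀ (K : AddSubgroup G) [MS M K], Pure K → Adm M K → (∀ g, m • g ∈ K) → Pp M K) :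
    Pp M H := by
  have := infinite_of_not_le hΛ.1
  have : Infinite (PM M Λ) := Le.sing.infinite
  have : Infinite (PM M (PM M Λ)) := Le.sing.infinite
  have : Nonempty (FM M (PM M (PM M Λ)) G) := ⟨⟨fun _ => 0, by fun_prop⟩⟩
  obtain ⟨Y, y1, y2⟩ := choice' (M := M) (R := fun (k : ℕ) (y : FM M (PM M (PM M Λ)) G) =>
    ∀ g, ∃ c, k • g - y.fn c ∈ H) (by fun_prop)
  obtain ⟨ρ, r1, r2⟩ := (Le.sing.trans (Le.sing (M := M) (α := PM M Λ))).surj
  obtain ⟨π, p1, p2⟩ := (Le.nat.pr (Le.refl (M := M) (α := PM M (PM M Λ)))).surj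
  obtain ⟨K, _, k1, k2, k3, y, k4, k5⟩ := exists_big (M := M) hp (fun c => if (π c).1 = 0 then e (ρ (π c).2)
    else (Y (π c).1).fn (π c).2) (by fun_prop)
  have k6 : ∀ m, 0 < m → Le M (Qt M H m).El (PM M (PM M Λ)) → ∀ g, m • g ∈ K := fun m hm h g => by
    obtain ⟨z, z1, z2⟩ := exists_cov h
    obtain ⟨c, hc⟩ := y2 m ⟨⟨z, z1⟩, z2⟩ g
    obtain ⟨d, hd⟩ := p2 (m, c)
    simpa [hd, hm.ne'] using add_mem (k1 hc) (k3 d)
  refine (ih K k2 (ha.trans k1 y k4 k5 fun m a b => Qt_fin (k6 m a b)) (k6 m hm h5)).glue k1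
    (big_piece kh hΛ k1 y k4 k5 hq h1 e he inj (fun a => ?_) h3 h4)
  obtain ⟨c, rfl⟩ := r2 a
  obtain ⟨d, hd⟩ := p2 (0, c)
  simpa [hd] using k3 d

theorem bdd_step (kh : KH M) (q : ℕ) (hq : 0 < q) : ∀ (H : AddSubgroup G) [MS M H], Pure H →
    Adm M H → (∀ g, q • g ∈ H) → Pp M H := by
  induction q using Nat.strong_induction_on with | _ q ih
  intro H _ hp ha h1
  by_cases q1 : q = 1
  · exact Pp.top (by simpa [q1] using h1)
  by_cases c : ∃ m, 0 < m ∧ m < q ∧ Finite (Qt M H m).El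
  · obtain ⟨m, m1, m2, m3⟩ := c
    obtain ⟨l, hl⟩ := Qt_list (M := M) (H := H) (m := m)
    clear m3
    induction hn : {x | x ∈ l ∧ x ∉ H}.ncard using Nat.strong_induction_on generalizing H with
    | _ n ih'
    rcases exists_exp hq h1 with ⟨k, k1, k2, k3⟩ | ⟨a, h2⟩
    · exact ih k k2 k1 H hp ha k3
    obtain ⟨b, b1, b2⟩ := hp q a (h1 a)
    have h3 : ∀ k : ℕ, k • (a - b) ∈ H → q ∣ k := fun k hk =>
      h2 k (by simpa [smul_sub] using add_mem hk (nsmul_mem b1 k))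
    have h4 : q • (a - b) = 0 := by rw [smul_sub, b2, sub_self]
    generalize a - b = a at h3 h4
    have : MS M (closure {a}) := inferInstanceAs
      (MS M (closure (PM.of (M := M) (fun x => x = a) (by fun_prop)).set))
    refine Pp.glue le_sup_left ?_ (cyc_piece hq h1 h4 h3)
    refine ih' {x | x ∈ l ∧ x ∉ H ⊔ closure {a}}.ncard ((Set.ncard_lt_ncard
      (t := {x | x ∈ l ∧ x ∉ H}) ⟨fun x h => ⟨h.1, fun e => h.2 (mem_sup_left e)⟩, fun h => ?_⟩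
      (l.finite_toSet.subset fun _ h => h.1)).trans_eq hn) _ (hp.cyclic hq h1 h3)
      (ha.trans le_sup_left (fun k : ℕ => k • a) (by fun_prop) (fun x hx => ?_) fun k k1 k2 => ?_)
      (fun g => mem_sup_left (h1 g)) (fun g => (hl g).imp fun x h => ⟨h.1, mem_sup_left h.2⟩) rfl
    · obtain ⟨x, x1, x2⟩ := hl a
      refine (h ⟨x1, fun e => (Nat.le_of_dvd m1 (h3 m (by simpa using add_mem x2 e))).not_gt m2⟩).2 ?_
      simpa using sub_mem (mem_sup_right (nsmul_mem (subset_closure (Set.mem_singleton a)) m))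
        (mem_sup_left x2)
    · obtain ⟨y, hy, z, hz, rfl⟩ := mem_sup.1 hx
      obtain ⟨j, rfl⟩ := mem_closure_singleton.1 hz
      refine ⟨(j % q).toNat, ?_⟩
      rw [← natCast_zsmul, Int.toNat_of_nonneg (Int.emod_nonneg _ (by omega)), add_sub_assoc,
        ← sub_smul, Int.emod_def, sub_sub_cancel, mul_comm, mul_smul, natCast_zsmul, h4, smul_zero, add_zero]
      exact hy
    · have := (ha k k1).resolve_right fun e => e.1 k2
      exact (Qt_mono le_sup_left).finite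
  obtain ⟨S, -, S2, S3, S4⟩ := exists_ind (H := H) (fun _ k => q ∣ k) (by fun_prop)
    (PM.of (M := M) (fun a => q • a = 0) (by fun_prop))
    (by rintro a - _ ⟨c, rfl⟩; rw [mul_smul]; exact h1 _)
    (PM.of (fun _ => False) (by fun_prop)) (fun _ => False.elim) fun _ => False.elim
  obtain ⟨m, m1, m2, m3⟩ := (exists_exp (H := H ⊔ closure S.set) hq
    fun g => mem_sup_left (h1 g)).resolve_right fun ⟨a, h⟩ => by
      obtain ⟨b, b1, b2⟩ := hp q a (h1 a)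
      have h3 : ∀ k : ℕ, k • (a - b) ∈ H ⊔ closure S.set → q ∣ k := fun k hk =>
        h k (by simpa [smul_sub] using add_mem hk (mem_sup_left (nsmul_mem b1 k)))
      rcases S4 (a - b) (show q • _ = 0 by rw [smul_sub, b2, sub_self]) with e | ⟨k, e, e'⟩
      · exact q1 (Nat.dvd_one.1 (h3 1 (by rw [one_smul]; exact mem_sup_right (subset_closure e))))
      · exact e (h3 k e')
  have hΛ := (ha m m1).resolve_left fun e => c ⟨m, m1, m2, e⟩
  have := infinite_of_not_le hΛ.1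
  obtain ⟨e, e1, e2⟩ : Le M (Qt M H m).El S.El := by
    by_contra d
    have : Infinite (ℕ × Option S.El) := Le.left.infinite (M := M)
    obtain ⟨y, y1, y2⟩ := cl_le (s := S) (α := ℕ × Option S.El)
      (Le.trans ⟨some, by fun_prop, Option.some_injective _⟩ Le.right)
    refine not_le_prod hΛ.1 (not_le_opt d) (Qt_le y y1 fun g => ?_)
    obtain ⟨a, a1, b, b1, e⟩ := mem_sup.1 (m3 g)
    exact (y2 b b1).imp fun c k => by simpa [k, ← e] using a1
  exact big_step kh hΛ hp ha q1 h1 (fun a => (e a).v) (by fun_prop) (PM.El.inj.comp e2)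
    (fun a => S2 _ (e a).mem) (S3.mono fun _ ⟨a, h⟩ => h ▸ (e a).mem) m1 (Le.sing.trans Le.sing)
    (ih m m2 m1)

end Pool.Agent.Lib.MP_fe6d4f_gt.Pos
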