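import Pool.Agent.Shared.InModel.Num

/-!
Independent families, extension of characters and quotient sizes for groups inside `M`.
-/

namespace Pool.Agent.Lib.MP_fe6d4f_gt.Pos

open Function AddSubgroup Pool.Agent.Shared.InModel

export AddSubgroup (closure closure_mono subset_closure closure_union closure_empty closure_induction)

universe u v w

section Alg

variable {G : Type u} [AddCommGroup G]

theorem mem_cl {S : Set G} {x : G} :
    x ∈ closure S ↔ ∃ l : List G, (∀ y ∈ l, y ∈ S ∨ -y ∈ S) ∧ l.sum = x := by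
  constructor
  · intro h
    have : x ∈ AddSubmonoid.closure (S ∪ -S) := closure_toAddSubmonoid S ▸ h
    exact AddSubmonoid.exists_list_of_mem_closure this
  · rintro ⟨l, h, rfl⟩
    exact list_sum_mem fun y hy => (h y hy).elim (subset_closure ·)
      fun e => neg_mem_iff.1 (subset_closure e)

theorem fin_cl {S : Set G} {x : G} (h : x ∈ closure S) :
    ∃ F : Finset G, ↑F ⊆ S ∧ x ∈ closure (F : Set G) := by
  classical
  induction h using closure_induction with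
  | mem x hx => exact ⟨{x}, by simpa using hx, subset_closure (by simp)⟩
  | zero => exact ⟨∅, by simp, zero_mem _⟩
  | add x y _ _ a b =>
    obtain ⟨F, a1, a2⟩ := a
    obtain ⟨E, b1, b2⟩ := b
    exact ⟨F ∪ E, by simp [a1, b1], add_mem (closure_mono (by simp) a2) (closure_mono (by simp) b2)⟩
  | neg x _ a => exact a.imp fun F h => ⟨h.1, neg_mem h.2⟩

theorem fin_sup {H : AddSubgroup G} {S : Set G} {x : G} (h : x ∈ H ⊔ closure S) :
    ∃ F : Finset G, ↑F ⊆ S ∧ x ∈ H ⊔ closure (F : Set G) := by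
  obtain ⟨a, ha, b, hb, rfl⟩ := mem_sup.1 h
  exact (fin_cl hb).imp fun F h => ⟨h.1, add_mem_sup ha h.2⟩

theorem mem_ins {H : AddSubgroup G} {S : Set G} {a x : G} (h : x ∈ H ⊔ closure (insert a S)) :
    ∃ j : ℤ, x - j • a ∈ H ⊔ closure S := by
  rw [Set.insert_eq, closure_union, sup_left_comm] at h
  obtain ⟨b, hb, c, hc, rfl⟩ := mem_sup.1 h
  obtain ⟨j, rfl⟩ := mem_closure_singleton.1 hb
  exact ⟨j, by simpa using hc⟩

theorem natAbs_mem {K : AddSubgroup G} {j : ℤ} {a : G} : j.natAbs • a ∈ K ↔ j • a ∈ K := by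
  obtain ⟨n, rfl | rfl⟩ := j.eq_nat_or_neg <;> simp

/-- Independence modulo `H`. -/
def Ind (H : AddSubgroup G) (Z : G → ℕ → Prop) (S : Set G) : Prop :=
  ∀ s ∈ S, ∀ k : ℕ, k • s ∈ H ⊔ closure (S \ {s}) → Z s k

theorem Ind.mono {H : AddSubgroup G} {Z : G → ℕ → Prop} {S S' : Set G} (h : Ind H Z S)
    (e : S' ⊆ S) : Ind H Z S' := fun s hs k hk =>
  h s (e hs) k (sup_le_sup_left (closure_mono (Set.sdiff_subset_sdiff_left e)) H hk)

theorem Ind.eq {H : AddSubgroup G} {Z : G → ℕ → Prop} {S : Set G} (h : Ind H Z S) {s t : G}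
    (hs : s ∈ S) (ht : t ∈ S) {k : ℕ} (hk : ¬ Z s k) (e : k • s - k • t ∈ H) : s = t :=
  by_contra fun c => hk (h s hs k (by
    simpa using add_mem_sup e (nsmul_mem (subset_closure (k := S \ {s}) ⟨ht, Ne.symm c⟩) k)))

theorem Ind.insert {H : AddSubgroup G} {Z : G → ℕ → Prop} {S : Set G} (h : Ind H Z S) {a : G}
    (hZ : ∀ k, Z a k → k • a ∈ H) (ha : ∀ k : ℕ, k • a ∈ H ⊔ closure S → Z a k) :
    Ind H Z (insert a S) := by
  intro s hs k hk
  by_cases e : s = a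
  · subst e
    exact ha k (sup_le_sup_left (closure_mono fun x hx => hx.1.resolve_left hx.2) H hk)
  have hs' := hs.resolve_left e
  obtain ⟨j, hj⟩ := mem_ins (a := a) (S := S \ {s})
    (sup_le_sup_left (closure_mono fun x hx => hx.1.imp_right fun c => ⟨c, hx.2⟩) H hk)
  have h1 : j • a ∈ H ⊔ closure S := by
    simpa using sub_mem (mem_sup_right (nsmul_mem (subset_closure hs') k))
      (sup_le_sup_left (closure_mono Set.sdiff_subset) H hj)
  exact h s hs' k (by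
    simpa using add_mem hj (mem_sup_left (natAbs_mem.1 (hZ _ (ha _ (natAbs_mem.2 h1))))))

theorem ind_graph {T : Type v} [AddCommGroup T] {N : AddSubgroup G} {S : Set G}
    (h : Ind N (fun s k => k • s ∈ N) S) (f : G → T)
    (hf : ∀ s ∈ S, ∀ k : ℕ, k • s ∈ N → k • f s = 0) :
    ∀ p ∈ closure ((fun s => (s, f s)) '' S), p.1 ∈ N → p.2 = 0 := by
  classical
  intro p hp
  obtain ⟨F, h1, h2⟩ := fin_cl hp
  clear hp
  induction F using Finset.induction_on generalizing p with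
  | empty => intro _; simp only [Finset.coe_empty, closure_empty, mem_bot] at h2; rw [h2]; rfl
  | insert e F he ih =>
    intro hp
    rw [Finset.coe_insert, Set.insert_subset_iff] at h1
    obtain ⟨⟨s, hs, rfl⟩, h3⟩ := h1
    obtain ⟨j, hj⟩ := mem_ins (H := ⊥) (by simpa using h2)
    rw [bot_sup_eq] at hj
    have h4 : closure (F : Set (G × T)) ≤ (closure (S \ {s})).comap (AddMonoidHom.fst G T) :=
      (closure_le _).2 fun x hx => by
        obtain ⟨t, ht, rfl⟩ := h3 hx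
        exact subset_closure (k := S \ {s}) ⟨ht, fun c => he (c ▸ hx)⟩
    have h5 : j • s ∈ N := natAbs_mem.1 (h s hs _ (natAbs_mem.2 (by
      simpa using sub_mem (mem_sup_left hp) (mem_sup_right (S := N) (mem_comap.1 (h4 hj))))))
    have h6 : j • f s = 0 := mem_bot.1 (natAbs_mem.1 (hf s hs _ (natAbs_mem.2 h5)))
    simpa [h6] using ih _ h3 hj (sub_mem hp h5)

theorem sep_elt {H : AddSubgroup G} {S : Set G} {g : G} (hg : g ∈ H ⊔ closure S) (hn : g ∉ H) :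
    ∃ F : Finset G, ↑F ⊆ S ∧ ∃ s ∈ S, ∃ j : ℤ, s ∉ F ∧ j • s ∉ H ∧
      g - j • s ∈ H ⊔ closure (F : Set G) := by
  classical
  obtain ⟨F, h1, h2⟩ := fin_sup hg
  induction F using Finset.induction_on with
  | empty => exact (hn (by simpa using h2)).elim
  | insert a F ha ih =>
    rw [Finset.coe_insert] at h1 h2
    obtain ⟨j, hj⟩ := mem_ins h2
    by_cases c : j • a ∈ H
    · exact ih (Set.insert_subset_iff.1 h1).2 (by simpa using add_mem hj (mem_sup_left c))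
    · exact ⟨F, (Set.insert_subset_iff.1 h1).2, a, (Set.insert_subset_iff.1 h1).1, j, ha, c, hj⟩

/-- Pure subgroups. -/
def Pure (H : AddSubgroup G) : Prop := ∀ (k : ℕ) (g : G), k • g ∈ H → ∃ h ∈ H, k • g = k • h

theorem exists_exp {H : AddSubgroup G} {q : ℕ} (hq : 0 < q) (h : ∀ g, q • g ∈ H) :
    (∃ m, 0 < m ∧ m < q ∧ ∀ g, m • g ∈ H) ∨ ∃ a, ∀ k : ℕ, k • a ∈ H → q ∣ k := by
  have h1 : ∀ x : G ⧸ H, q • x = 0 := fun x => QuotientAddGroup.induction_on x fun g =>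
    (QuotientAddGroup.eq_zero_iff _).2 (h g)
  have h2 : AddMonoid.ExponentExists (G ⧸ H) := ⟨q, hq, h1⟩
  rcases (AddMonoid.exponent_min' q hq h1).lt_or_eq with e | e
  · exact Or.inl ⟨_, h2.exponent_pos, e, fun g => (QuotientAddGroup.eq_zero_iff _).1
      (AddMonoid.exponent_nsmul_eq_zero (g : G ⧸ H))⟩
  · obtain ⟨x, hx⟩ := AddMonoid.exists_addOrderOf_eq_exponent h2
    obtain ⟨a, rfl⟩ := QuotientAddGroup.mk_surjective x
    exact Or.inr ⟨a, fun k hk => e ▸ hx ▸ addOrderOf_dvd_of_nsmul_eq_zero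
      ((QuotientAddGroup.eq_zero_iff _).2 hk)⟩

theorem Pure.cyclic {H : AddSubgroup G} (h : Pure H) {q : ℕ} (hq : 0 < q) (h1 : ∀ g, q • g ∈ H)
    {a : G} (ha : ∀ k : ℕ, k • a ∈ H → q ∣ k) : Pure (H ⊔ closure {a}) := by
  intro k g hg
  obtain ⟨j, hj⟩ := mem_ins (H := H) (a := a) (S := ∅) (by rwa [insert_empty_eq])
  rw [closure_empty, sup_bot_eq] at hj
  obtain ⟨c, hc⟩ := Nat.gcd_dvd_right k q
  obtain ⟨d, hd⟩ := Nat.gcd_dvd_left k q
  have bz := Nat.gcd_eq_gcd_ab k q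
  generalize k.gcd q = e at hc hd bz
  generalize k.gcdA q = u at bz
  generalize k.gcdB q = v at bz
  have h2 : ((c : ℤ) * j) • a ∈ H := by
    have : c • k • g = d • q • g := by rw [smul_smul, smul_smul, hc, hd]; congr 1; ring
    have h3 := sub_mem (nsmul_mem (h1 g) d) (nsmul_mem hj c)
    rwa [smul_sub, this, sub_sub_cancel, ← natCast_zsmul, smul_smul] at h3
  have h3 : (e : ℤ) ∣ j := by
    have := ha _ (natAbs_mem.2 h2)
    rw [Int.natAbs_mul, Int.natAbs_natCast, hc, mul_comm] at this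
    exact Int.natCast_dvd.2 (Nat.dvd_of_mul_dvd_mul_left (Nat.pos_of_mul_pos_left (hc ▸ hq)) this)
  obtain ⟨n, rfl⟩ := h3
  obtain ⟨x, hx, h4⟩ := h k (g - (u * n) • a) (by
    have := add_mem hj (zsmul_mem (h1 a) (v * n))
    rw [bz] at this
    refine (congrArg (· ∈ H) ?_).mp this
    module)
  exact ⟨x + (u * n) • a, add_mem_sup hx (zsmul_mem (subset_closure (Set.mem_singleton a)) (u * n)),
    by rw [smul_add, ← h4, ← smul_add, sub_add_cancel]⟩

end Alg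

variable {M : ZFSet.{0}} [Mdl M] {G : Type u} [AddCommGroup G] [Cd M G]
variable {α : Type v} [Cd M α]

/-- Subgroups lying in `M`. -/
class MS (M : ZFSet.{0}) [Mdl M] {G : Type u} [AddCommGroup G] [Cd M G] (H : AddSubgroup G) :
    Prop where
  mf : MF M fun x => x ∈ H

@[fun_prop] theorem mf_memS {H : AddSubgroup G} [MS M H] {f : α → G} (hf : MF M f) :
    MF M fun x => f x ∈ H := MS.mf.comp hf

instance : MS M (⊥ : AddSubgroup G) := ⟨MF.of_iff (p := fun x => x = 0) (by fun_prop) fun _ => mem_bot⟩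

variable [MG M G]

instance {H K : AddSubgroup G} [MS M H] [MS M K] : MS M (H ⊔ K) :=
  ⟨MF.of_iff (p := fun x => ∃ y, y ∈ H ∧ ∃ z, z ∈ K ∧ y + z = x) (by fun_prop) fun _ => mem_sup⟩

@[fun_prop] theorem mf_cl {s : α → PM M G} {f : α → G} (hf : MF M f) (hs : MF M s) :
    MF M fun x => f x ∈ closure (s x).set :=
  MF.of_iff (p := fun x => ∃ l : List G, (∀ y, y ∈ l → y ∈ s x ∨ -y ∈ s x) ∧ l.sum = f x)
    (by fun_prop) fun _ => mem_cl

instance (s : PM M G) : MS M (closure s.set) := ⟨mf_cl MF.id' (MF.const s)⟩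

instance {T : Type v} [AddCommGroup T] [Cd M T] [MG M T] : MG M (G × T) :=
  ⟨MF.congr (f := fun p : (G × T) × G × T => (p.1.1 + p.2.1, p.1.2 + p.2.2)) (by fun_prop)
    fun _ => rfl⟩

/-- Cosets. -/
def cos (M : ZFSet.{0}) [Mdl M] [Cd M G] [MG M G] (H : AddSubgroup G) [MS M H] (x : G) : PM M G :=
  PM.lam (fun x z => z - x ∈ H) (by fun_prop) x

/-- The group `m • (G / H)` as a set of cosets. -/
noncomputable def Qt (M : ZFSet.{0}) [Mdl M] [Cd M G] [MG M G] (H : AddSubgroup G) [MS M H] (m : ℕ) :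
    PM M (PM M G) :=
  PM.of (fun s => ∃ g, cos M H (m • g) = s) (by unfold cos; fun_prop)

variable {H H' : AddSubgroup G} [MS M H] [MS M H'] {m : ℕ}

/-- The coset of `m • g`. -/
noncomputable def qt (M : ZFSet.{0}) [Mdl M] [Cd M G] [MG M G] (H : AddSubgroup G) [MS M H] (m : ℕ) (g : G) :
    (Qt M H m).El := PM.mk' _ (cos M H (m • g)) ⟨g, rfl⟩

@[fun_prop] theorem mf_qt {f : α → G} (hf : MF M f) : MF M fun x => qt M H m (f x) := by
  unfold qt cos; fun_prop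

theorem qt_surj : Surjective (qt M H m) := fun x => x.mem.imp fun _ e => PM.El.inj e

theorem qt_eq {g g' : G} : qt M H m g = qt M H m g' ↔ m • g - m • g' ∈ H :=
  PM.El.inj.eq_iff.symm.trans ⟨fun e => by
    simpa [qt, cos] using congrArg (fun s => m • g ∈ s) e, fun e => PM.ext' fun z =>
    ⟨fun h => by simpa [qt, cos] using add_mem (show z - _ ∈ H from h) e,
      fun h => by simpa [qt, cos] using sub_mem (show z - _ ∈ H from h) e⟩⟩

theorem le_Qt (x : α → G) (hx : MF M x) (h : ∀ b c, m • x b - m • x c ∈ H → b = c) :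
    Le M α (Qt M H m).El :=
  ⟨fun b => qt M H m (x b), by fun_prop, fun b c e => h b c (qt_eq.1 e)⟩

theorem Qt_fin (h : ∀ g, m • g ∈ H) : Finite (Qt M H m).El :=
  Finite.of_surjective (fun _ : Unit => qt M H m 0) fun x => by
    obtain ⟨g, rfl⟩ := qt_surj x
    exact ⟨(), qt_eq.2 (sub_mem (h _) (h _))⟩

theorem Qt_list [Finite (Qt M H m).El] : ∃ l : List G, ∀ g, ∃ x ∈ l, m • g - x ∈ H := by
  have := Fintype.ofFinite (Qt M H m).El
  exact ⟨Finset.univ.toList.map fun c => m • surjInv (qt_surj (M := M) (H := H) (m := m)) c, fun g =>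
    ⟨_, List.mem_map_of_mem (a := qt M H m g) (by simp), qt_eq.1 (surjInv_eq _ _).symm⟩⟩

theorem Qt_bdd [Finite (Qt M ⊥ m : PM M (PM M G)).El] (hm : 0 < m) :
    ∃ q, 0 < q ∧ ∀ g : G, q • g = 0 := by
  obtain ⟨l, hl⟩ := Qt_list (M := M) (H := (⊥ : AddSubgroup G)) (m := m)
  have : Finite (nsmulAddMonoidHom (α := G) m).range := l.finite_toSet.subset (by
    rintro _ ⟨g, rfl⟩
    obtain ⟨x, h1, h2⟩ := hl g
    exact (congrArg (· ∈ l) (sub_eq_zero.1 h2)).mpr h1)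
  exact ⟨Nat.card (nsmulAddMonoidHom (α := G) m).range * m, mul_pos Nat.card_pos hm, fun g => by
    simpa [mul_smul] using congrArg Subtype.val
      (card_nsmul_eq_zero' (x := (⟨_, g, rfl⟩ : (nsmulAddMonoidHom (α := G) m).range)))⟩

variable [Chc M]

theorem Qt_le (y : α → G) (hy : MF M y) (h : ∀ g, ∃ c, m • g - y c ∈ H) : Le M (Qt M H m).El α :=
  Le.of_rel (fun a c => ∃ g, qt M H m g = a ∧ m • g - y c ∈ H) (by fun_prop)
    (fun a => let ⟨g, e⟩ := qt_surj a; let ⟨c, hc⟩ := h g; ⟨c, g, e, hc⟩)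
    (by rintro _ _ c ⟨g, rfl, a⟩ ⟨g', rfl, b⟩; exact qt_eq.2 (by simpa using sub_mem a b))

theorem exists_sec (M : ZFSet.{0}) [Mdl M] [Chc M] [Cd M G] [MG M G] (H : AddSubgroup G) [MS M H]
    (m : ℕ) : ∃ σ : (Qt M H m).El → G, MF M σ ∧ ∀ g, m • g - m • σ (qt M H m g) ∈ H :=
  let ⟨σ, h1, h2⟩ := choice (M := M) (R := fun a g => qt M H m g = a) (by fun_prop) qt_surj
  ⟨σ, h1, fun _ => qt_eq.1 (h2 _).symm⟩

theorem exists_cov (h : Le M (Qt M H m).El α) :
    ∃ y : α → G, MF M y ∧ ∀ g, ∃ c, m • g - y c ∈ H := by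
  have : Nonempty (Qt M H m).El := ⟨qt M H m 0⟩
  obtain ⟨f, h1, h2⟩ := h.surj
  obtain ⟨σ, h3, h4⟩ := exists_sec M H m
  exact ⟨fun c => m • σ (f c), by fun_prop, fun g => (h2 (qt M H m g)).imp fun c e => by
    simp only [e]; exact h4 g⟩

theorem Qt_mono (h : H ≤ H') : Le M (Qt M H' m).El (Qt M H m).El :=
  let ⟨y, h1, h2⟩ := exists_cov (Le.refl (α := (Qt M H m).El))
  Qt_le y h1 fun g => (h2 g).imp fun _ e => h e

theorem Qt_trans (y : α → G) (hy : MF M y) (h : ∀ x ∈ H', ∃ c, x - y c ∈ H) :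
    Le M (Qt M H m).El ((Qt M H' m).El × α) := by
  obtain ⟨z, h1, h2⟩ := exists_cov (Le.refl (α := (Qt M H' m).El))
  refine Qt_le (fun p => z p.1 + y p.2) (by fun_prop) fun g => ?_
  obtain ⟨b, hb⟩ := h2 g
  obtain ⟨c, hc⟩ := h _ hb
  exact ⟨(b, c), by rwa [← sub_sub]⟩

theorem cl_le [Infinite α] {s : PM M G} (h : Le M s.El α) :
    ∃ y : α → G, MF M y ∧ ∀ x ∈ closure s.set, ∃ c, y c = x := by
  obtain ⟨x, h1, h2⟩ := h.cover
  obtain ⟨σ, h3, h4⟩ := ((Le.bool.trans Le.nat).pr (Le.refl (M := M) (α := α))).li.surj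
  refine ⟨fun c => ((σ c).map fun p => if p.1 = true then x p.2 else -x p.2).sum, by fun_prop,
    fun g hg => ?_⟩
  obtain ⟨l, h5, rfl⟩ := mem_cl.1 hg
  have : ∀ a ∈ l, ∃ p : Bool × α, (if p.1 = true then x p.2 else -x p.2) = a := fun a ha =>
    (h5 a ha).elim (fun e => let ⟨b, hb⟩ := h2 _ e; ⟨(true, b), by simp [hb]⟩)
      fun e => let ⟨b, hb⟩ := h2 _ e; ⟨(false, b), by simp [hb]⟩
  choose f hf using this
  obtain ⟨c, hc⟩ := h4 (l.pmap f fun _ h => h)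
  exact ⟨c, by simp [hc, List.map_pmap, hf]⟩

/-- Uncountable sets `Λ` with `Λ ^ ω = Λ`. -/
def Good (M : ZFSet.{0}) [Mdl M] (Λ : Type v) [Cd M Λ] : Prop :=
  ¬ Le M Λ ℕ ∧ Le M (FM M ℕ Λ) Λ

omit [Chc M] in
theorem Good.of_le {β : Type w} [Cd M β] (h : Good M α) (h1 : Le M α β) (h2 : Le M β α) :
    Good M β := ⟨fun e => h.1 (h1.trans e), h2.fm.trans (h.2.trans h1)⟩

/-- Admissible quotients. -/
def Adm (M : ZFSet.{0}) [Mdl M] [Cd M G] [MG M G] (H : AddSubgroup G) [MS M H] : Prop :=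
  ∀ m, 0 < m → Finite (Qt M H m).El ∨ Good M (Qt M H m).El

theorem Adm.trans [Infinite α] (h : Adm M H) (hle : H ≤ H') (y : α → G) (hy : MF M y)
    (h1 : ∀ x ∈ H', ∃ c, x - y c ∈ H)
    (h2 : ∀ m, 0 < m → Le M (Qt M H m).El α → Finite (Qt M H' m).El) : Adm M H' := fun m hm => by
  by_cases c : Le M (Qt M H m).El α
  · exact Or.inl (h2 m hm c)
  have := infinite_of_not_le c
  refine Or.inr (((h m hm).resolve_left (not_finite_iff_infinite.2 this)).of_le ?_ (Qt_mono hle))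
  by_contra d
  exact not_le_prod d c (Qt_trans y hy h1)

theorem exists_big [Infinite α] (hp : Pure H) (x : α → G) (hx : MF M x) :
    ∃ (K : AddSubgroup G) (_ : MS M K), H ≤ K ∧ Pure K ∧ (∀ c, x c ∈ K) ∧
      ∃ y : α → G, MF M y ∧ ∀ h ∈ K, ∃ c, h - y c ∈ H := by
  obtain ⟨D, d1, d2⟩ := choice' (M := M) (R := fun (p : ℕ × G) z => p.1 • z - p.2 ∈ H) (by fun_prop)
  obtain ⟨y, h1, h2, h3⟩ := exists_closure (M := M) (fun i (l : List G) =>
    if i = 0 then l.getD 0 0 - l.getD 1 0 else D (i - 1, l.getD 0 0)) (by fun_prop) x hx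
  obtain ⟨o, ho⟩ := h3 0 [] (by simp)
  refine ⟨ofSub {g | ∃ c, g - y c ∈ H} ⟨_, o, by rw [sub_self]; exact zero_mem _⟩ ?_,
    ⟨(by fun_prop : MF M fun g => ∃ c, g - y c ∈ H)⟩, fun g hg => ⟨o, by simpa [ho] using hg⟩, ?_,
    fun c => (h2 c).imp fun d e => by rw [e, sub_self]; exact zero_mem _, y, h1, fun _ h => h⟩
  · rintro a ⟨c, hc⟩ b ⟨d, hd⟩
    obtain ⟨e, he⟩ := h3 0 [y c, y d] (by simp)
    refine ⟨e, (congrArg (· ∈ H) ?_).mp (sub_mem hc hd)⟩
    simp only [he, if_true, List.getD_cons_zero, List.getD_cons_succ]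
    abel
  · rintro k g ⟨c, hc⟩
    obtain ⟨e, he⟩ := h3 (k + 1) [y c] (by simp)
    obtain ⟨h, h4, h5⟩ := hp k (g - y e) (by
      simpa [he, smul_sub] using sub_mem hc (d2 (k, y c) ⟨g, hc⟩))
    exact ⟨h + y e, ⟨e, by simpa using h4⟩, by rw [smul_add, ← h5, ← smul_add, sub_add_cancel]⟩

theorem exists_ind (Z : G → ℕ → Prop) (hZ : MF M fun p : G × ℕ => Z p.1 p.2) (W : PM M G)
    (hW : ∀ a ∈ W, ∀ k, Z a k → k • a ∈ H) (S₀ : PM M G) (h0 : ∀ a ∈ S₀, a ∈ W)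
    (h1 : Ind H Z S₀.set) : ∃ S : PM M G, (∀ a ∈ S₀, a ∈ S) ∧ (∀ a ∈ S, a ∈ W) ∧ Ind H Z S.set ∧
      ∀ a ∈ W, a ∈ S ∨ ∃ k, ¬ Z a k ∧ k • a ∈ H ⊔ closure S.set := by
  classical
  let R := PM.lam (M := M) (fun (p : PM M G × G) y => y ∈ p.1 ∧ y ≠ p.2) (by fun_prop)
  have hR : MF M R := MF.pmlam MF.id'
  obtain ⟨S, h2, h3, h4⟩ := tukey (fun S => (∀ a ∈ S, a ∈ W) ∧ Ind H Z S)
    (MF.of_iff (p := fun S : PM M G => (∀ a, a ∈ S → a ∈ W) ∧ ∀ s, s ∈ S → ∀ k : ℕ,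
      (∃ y, y ∈ H ∧ ∃ z, z ∈ closure (R (S, s)).set ∧ y + z = k • s) → Z s k) (by fun_prop)
      fun S => by simp only [Ind, mem_sup]; rfl)
    (fun S h => ⟨fun a ha => let ⟨_, a1, a2⟩ := h {a} (by simpa using ha); a2.1 a (a1 (by simp)),
      fun s hs k hk => by
        obtain ⟨F, a1, a2⟩ := fin_sup hk
        obtain ⟨S', b1, b2⟩ := h (insert s F) (by
          rw [Finset.coe_insert]; exact Set.insert_subset hs (a1.trans Set.sdiff_subset))
        exact b2.2 s (b1 (by simp)) k (sup_le_sup_left (closure_mono (k := S' \ {s}) fun x hx =>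
          ⟨b1 (by simp [show x ∈ F from hx]), (a1 hx).2⟩) H a2)⟩) S₀ ⟨h0, h1⟩
  refine ⟨S, h2, h3.1, h3.2, fun a ha => or_iff_not_imp_right.2 fun c => h4 a
    ⟨Set.forall_mem_insert.2 ⟨ha, h3.1⟩, h3.2.insert (hW a ha) fun k hk => ?_⟩⟩
  exact by_contra fun d => c ⟨k, d, hk⟩

/-- Additive functions. -/
def Hm (φ : FM M G (TM M)) : Prop := ∀ a b, φ.fn (a + b) = φ.fn a + φ.fn b

/-- The homomorphism given by an additive function. -/
def Hm.hom {φ : FM M G (TM M)} (h : Hm φ) : G →+ TM M := AddMonoidHom.mk' φ.fn h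

theorem exists_ext {S : PM M G} (h : Ind H (fun s k => k • s ∈ H) S.set) (f : G → TM M)
    (hf : MF M f) (h1 : ∀ s ∈ S, ∀ k : ℕ, k • s ∈ H → k • f s = 0) :
    ∃ φ : FM M G (TM M), Hm φ ∧ (∀ x ∈ H, φ.fn x = 0) ∧ ∀ s ∈ S, φ.fn s = f s := by
  obtain ⟨Γ, h2, h3, h4⟩ := tukey (M := M) (fun Γ : Set (G × TM M) => ∀ p ∈ closure Γ, p.1 = 0 → p.2 = 0)
    (by fun_prop) (fun Γ h p hp => by
      obtain ⟨F, a1, a2⟩ := fin_cl hp
      obtain ⟨S', b1, b2⟩ := h F a1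
      exact b2 p (closure_mono b1 a2))
    (PM.of (fun p => (p.1 ∈ H ∧ p.2 = 0) ∨ (p.1 ∈ S ∧ p.2 = f p.1)) (by fun_prop)) (fun p hp e => by
      have : p ∈ H.prod ⊥ ⊔ closure ((fun s => (s, f s)) '' S.set) := (closure_le _).2 (by
        rintro x (hx | hx)
        · exact mem_sup_left hx
        · exact mem_sup_right (subset_closure ⟨x.1, hx.1, Prod.ext rfl hx.2.symm⟩)) hp
      obtain ⟨a, ha, b, hb, rfl⟩ := mem_sup.1 this
      rw [Prod.snd_add, ind_graph h f h1 b hb ?_, ha.2, add_zero]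
      rw [eq_neg_of_add_eq_zero_right e]
      exact neg_mem ha.1)
  obtain ⟨χ, hχ⟩ := baer.extension_property_addMonoidHom
    ((AddMonoidHom.fst G (TM M)).comp (closure Γ.set).subtype)
    ((injective_iff_map_eq_zero _).2 fun p e => Subtype.ext (Prod.ext e (h3 p p.2 e)))
    ((AddMonoidHom.snd G (TM M)).comp (closure Γ.set).subtype)
  have h5 : ∀ p ∈ Γ, χ p.1 = p.2 := fun p hp => DFunLike.congr_fun hχ ⟨p, subset_closure hp⟩
  have h6 : ∀ a, (a, χ a) ∈ Γ := fun a => h4 _ fun p hp e => by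
    have : p ∈ AddMonoidHom.eqLocus (χ.comp (AddMonoidHom.fst _ _)) (AddMonoidHom.snd _ _) :=
      (closure_le _).2 (Set.insert_subset rfl fun x hx => h5 x hx) hp
    exact (show χ p.1 = p.2 from this).symm.trans (by rw [e, map_zero])
  exact ⟨⟨χ, MF.of_rel (fun a t => (a, t) ∈ Γ) (by fun_prop) fun a t =>
    ⟨fun e => e ▸ h6 a, h5 (a, t)⟩⟩, χ.map_add, fun x hx => h5 (x, 0) (h2 (Or.inl ⟨hx, rfl⟩)),
    fun s hs => h5 (s, f s) (h2 (Or.inr ⟨hs, rfl⟩))⟩

end Pool.Agent.Lib.MP_fe6d4f_gt.Pos
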