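import Pool.Agent.Lib.MP_fe6d4f_gt.Pos.Baire
import Pool.Agent.Lib.MP_fe6d4f_gt.Defs

/-!
The positive answer to Q1 in models with `GCH` and `KH`.
-/

namespace Pool.Agent.Lib.MP_fe6d4f_gt.Pos

open Function Filter Topology Pool.Agent.Lib.MP_053343_lc Pool.Agent.Shared.InModel

variable {M : ZFSet.{0}} [Mdl M] {A : {a // a ∈ M}}

instance : CanLift ZFSet (ZE A) (fun x => x.1) fun z => z ∈ A.1 := ⟨fun z h => ⟨⟨z, h⟩, rfl⟩⟩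

theorem mem_cd {s : PM M (ZE A)} {x : ZE A} : x.1 ∈ cd M s ↔ x ∈ s :=
  mem_cd_PM.trans ⟨fun ⟨_, a, b⟩ => Subtype.ext b ▸ a, fun h => ⟨x, h, rfl⟩⟩

theorem cd_sub (s : PM M (ZE A)) : cd M s ⊆ A.1 := fun _ h =>
  let ⟨x, _, b⟩ := mem_cd_PM.1 h; b ▸ x.2

theorem mf_in {α : Type*} [Cd M α] {U : ZFSet} (h : U ∈ M) : MF M fun x : α => cd M x ∈ U :=
  MF.of_df (Df.intro (.mem 0 1) [U] (by simpa using h) fun _ => Iff.rfl)

theorem cd_eq {s : PM M (ZE A)} {U : ZFSet} (h : U ⊆ A.1) (e : ∀ x, x ∈ s ↔ x.1 ∈ U) :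
    cd M s = U :=
  ZFSet.ext fun z => ⟨fun a => (e ⟨z, cd_sub s a⟩).1 (mem_cd.1 a),
    fun a => mem_cd.2 ((e ⟨z, h a⟩).2 a)⟩

theorem exists_pm {U : ZFSet} (h : U ∈ M) (h' : U ⊆ A.1) : ∃ s : PM M (ZE A), cd M s = U :=
  ⟨PM.of _ (mf_in h), cd_eq h' fun _ => Iff.rfl⟩

theorem mf_iff {α β : Type*} [Cd M α] [Cd M β] {f : α → β} :
    MF M f ↔ ∃ g ∈ M, ∀ z, z ∈ g ↔ ∃ x, z = ZFSet.pair (cd M x) (cd M (f x)) :=
  exists_congr fun _ => and_congr_right fun _ => forall_congr' fun _ => iff_congr Iff.rfl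
    ⟨fun ⟨p, (a : f p.1 = p.2), b⟩ => ⟨p.1, by rw [← b, a]; rfl⟩,
      fun ⟨n, e⟩ => ⟨(n, f n), rfl, e.symm⟩⟩

theorem seqIn_iff {α : Type*} [Cd M α] {x : ℕ → α} : SeqIn M (fun n => cd M (x n)) ↔ MF M x :=
  mf_iff.symm

theorem exists_slack {α : Type*} (f : α → ℝ) (q : ℝ) (l : List α) (h : ∀ a ∈ l, f a < q) :
    ∃ r : ℚ, 0 < r ∧ ∀ a ∈ l, f a + r ≤ q := by
  induction l with
  | nil => exact ⟨1, one_pos, by simp⟩
  | cons a l ih =>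
    obtain ⟨r, h1, h2⟩ := ih fun b hb => h b (List.mem_cons_of_mem _ hb)
    obtain ⟨s, h3, h4⟩ := exists_rat_btwn (sub_pos.2 (h a List.mem_cons_self))
    refine ⟨min r s, lt_min h1 (mod_cast h3), List.forall_mem_cons.2 ⟨?_, fun b hb => ?_⟩⟩ <;>
      push_cast
    exacts [by linarith [min_le_right (r : ℝ) s], by linarith [min_le_left (r : ℝ) s, h2 b hb]]

variable {add : ZFSet.{0} → ZFSet.{0} → ZFSet.{0}} {o : ZFSet.{0}}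

omit [Mdl M] in
theorem exists_grp (h : AbGrp M A.1 add o) : ∃ _ : AddCommGroup (ZE A),
    (∀ x y : ZE A, (x + y).1 = add x.1 y.1) ∧ (0 : ZE A).1 = o := by
  choose n n1 n2 using h.neg
  let _ : Add (ZE A) := ⟨fun x y => ⟨add x.1 y.1, h.closed _ x.2 _ y.2⟩⟩
  let _ : Zero (ZE A) := ⟨⟨o, h.zero_mem⟩⟩
  let _ : Neg (ZE A) := ⟨fun x => ⟨n x.1 x.2, n1 _ _⟩⟩
  exact ⟨{ AddGroup.ofLeftAxioms (G := ZE A) (fun x y z => Subtype.ext (h.assoc _ x.2 _ y.2 _ z.2))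
      (fun x => Subtype.ext (h.zero_add _ x.2))
      (fun x => Subtype.ext ((h.comm _ (n1 _ _) _ x.2).trans (n2 _ _))) with
    add_comm := fun x y => Subtype.ext (h.comm _ x.2 _ y.2) }, fun _ _ => rfl, rfl⟩

variable [AddCommGroup (ZE A)] (ea : ∀ x y : ZE A, (x + y).1 = add x.1 y.1) (eo : (0 : ZE A).1 = o)
include ea

theorem mg (h : AbGrp M A.1 add o) : MG M (ZE A) :=
  ⟨mf_iff.2 (h.graph.imp fun _ a => ⟨a.1, fun z => (a.2 z).trans ⟨by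
    rintro ⟨x, hx, y, hy, rfl⟩
    exact ⟨(⟨x, hx⟩, ⟨y, hy⟩), congrArg (ZFSet.pair _) (ea ⟨x, hx⟩ ⟨y, hy⟩).symm⟩, by
    rintro ⟨p, rfl⟩
    exact ⟨_, p.1.2, _, p.2.2, congrArg (ZFSet.pair _) (ea _ _)⟩⟩⟩)⟩

variable [MG M (ZE A)]
include eo

theorem ns {τ : ZFSet} (h : GroupTop M A.1 add o τ) (hp : Pseudocompact M A.1 τ) :
    NS (M := M) fun V : PM M (ZE A) =>
      ∃ U : PM M (ZE A), cd M U ∈ τ ∧ 0 ∈ U ∧ ∀ x, x ∈ U → x ∈ V := by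
  classical
  have ex : ∀ U ∈ τ, ∃ s : PM M (ZE A), cd M s = U := fun U e =>
    exists_pm (tr h.mem e) (h.top.1 U e)
  have it : ∀ U V : PM M (ZE A), cd M U ∈ τ → cd M V ∈ τ →
      cd M (PM.of (M := M) (fun x => x ∈ U ∧ x ∈ V) (by fun_prop)) ∈ τ := fun U V a b => by
    rw [cd_eq (U := cd M U ∩ cd M V) (fun z e => cd_sub U (ZFSet.mem_inter.1 e).1)
      fun x => by simp [mem_cd]]
    exact h.top.2.2.1 _ a _ b
  have ac : ∀ (x y : ZE A) (U : PM M (ZE A)), cd M U ∈ τ → x + y ∈ U → ∃ V W : PM M (ZE A),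
      cd M V ∈ τ ∧ cd M W ∈ τ ∧ x ∈ V ∧ y ∈ W ∧ ∀ a ∈ V, ∀ b ∈ W, a + b ∈ U := fun x y U a b => by
    obtain ⟨V, v, W, w, c⟩ := h.add_cont _ x.2 _ y.2 _ a (ea x y ▸ mem_cd.2 b)
    obtain ⟨V, rfl⟩ := ex V v
    obtain ⟨W, rfl⟩ := ex W w
    exact ⟨V, W, v, w, mem_cd.1 c.1, mem_cd.1 c.2.1, fun a ha b hb =>
      mem_cd.1 (ea a b ▸ c.2.2 _ (mem_cd.2 ha) _ (mem_cd.2 hb))⟩
  let O : PM M (ZE A) → Prop := fun U => cd M U ∈ τ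
  have hO : MF M O := mf_in h.mem
  refine ⟨(by fun_prop : MF M fun V : PM M (ZE A) => ∃ U, O U ∧ 0 ∈ U ∧ ∀ x, x ∈ U → x ∈ V), ?_,
    fun V ⟨U, a⟩ => a.2.2 0 a.2.1, fun V W U ⟨X, a⟩ ⟨Y, b⟩ c => ⟨_, it X Y a.1 b.1, ⟨a.2.1, b.2.1⟩,
      fun x e => c x (a.2.2 x e.1) (b.2.2 x e.2)⟩, fun V ⟨U, a⟩ => ?_, fun x hx => ?_,
    fun F h1 h2 => ?_⟩
  · obtain ⟨s, e⟩ := ex _ h.top.2.1
    exact ⟨s, s, e ▸ h.top.2.1, mem_cd.1 (by rw [e]; exact (0 : ZE A).2), fun _ => id⟩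
  · obtain ⟨X, Y, b1, b2, b3, b4, b5⟩ := ac 0 0 U a.1 (by simpa using a.2.1)
    obtain ⟨Z, c1, c2, c3⟩ := h.neg_cont _ (0 : ZE A).2 _ b2 _ (mem_cd.2 b4)
      (by rw [← ea, add_zero, eo])
    obtain ⟨Z, rfl⟩ := ex Z c1
    exact ⟨_, ⟨_, it X Z b1 c1, ⟨b3, mem_cd.1 c2⟩, fun _ => id⟩, fun x hx y hy => a.2.2 _
      (sub_eq_add_neg x y ▸ b5 x hx.1 _ (mem_cd.1 (c3 _ (mem_cd.2 hy.2) _ (-y).2
        (by rw [← ea, add_neg_cancel, eo]))))⟩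
  · obtain ⟨U, -, V, a, b, c, d⟩ := h.t2 _ x.2 _ (0 : ZE A).2 fun e => hx (Subtype.ext e)
    obtain ⟨V, rfl⟩ := ex V a
    exact ⟨V, ⟨V, a, mem_cd.1 c, fun _ => id⟩, fun e => d _ b (mem_cd.2 e)⟩
  · have e : ∀ x, cd M (PM.lam (fun x (q : ℚ) => (q : ℝ) < F x) h1 x) = cut (F x) := fun x =>
      ZFSet.ext fun z => mem_cd_PM.trans (mem_cut.trans
        (exists_congr fun _ => and_congr_right fun _ => eq_comm)).symm
    obtain ⟨g, g1, g2⟩ := mf_iff.1 (MF.toPM (f := PM.lam (fun x (q : ℚ) => (q : ℝ) < F x) h1) h1)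
    obtain ⟨n, hn⟩ := hp (fun z => if h : z ∈ A.1 then F ⟨z, h⟩ else 0)
      ⟨⟨g, g1, fun z => (g2 z).trans ⟨by
        rintro ⟨x, rfl⟩
        exact ⟨_, x.2, congrArg (ZFSet.pair _) (by simp only [e, dif_pos x.2]; rfl)⟩, by
        rintro ⟨x, hx, rfl⟩
        exact ⟨⟨x, hx⟩, congrArg (ZFSet.pair _) (by simp only [e, dif_pos hx])⟩⟩⟩, fun x hx ε hε => by
        obtain ⟨V, ⟨U, a⟩, b⟩ := h2 ⟨x, hx⟩ ε hε
        obtain ⟨X, Y, b1, -, b3, b4, b5⟩ := ac ⟨x, hx⟩ (-⟨x, hx⟩) U a.1 (by simpa using a.2.1)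
        refine ⟨_, b1, mem_cd.2 b3, fun y hy => ?_⟩
        simp only [dif_pos hx, dif_pos (cd_sub X hy)]
        exact b _ (a.2.2 _ (sub_eq_add_neg (G := ZE A) _ _ ▸ b5 _ (mem_cd.1 hy) _ b4))⟩
    exact ⟨n, fun x => by have := hn _ x.2; rwa [dif_pos x.2] at this⟩

theorem final [Chc M] (h : Pp M (⊥ : AddSubgroup (ZE A))) :
    ∃ τ, GroupTop M A.1 add o τ ∧ WinsSsp M A.1 τ := by
  classical
  obtain ⟨Φ, D, h⟩ := h
  let Op : PM M (PM M (ZE A)) := PM.of (fun U => ∀ x, x ∈ U → ∃ l : List (FM M (ZE A) (TM M)),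
    (∀ φ, φ ∈ l → φ ∈ Φ) ∧ ∃ q : ℚ, 0 < q ∧
      ∀ y, (∀ φ, φ ∈ l → ‖φ.fn y - φ.fn x‖ < q) → y ∈ U) (by fun_prop)
  let B : ZE A → List (FM M (ZE A) (TM M)) → ℚ → PM M (ZE A) := fun x l q =>
    PM.of (fun y => ∀ φ, φ ∈ l → ‖φ.fn y - φ.fn x‖ < q) (by fun_prop)
  have m : ∀ s, cd M s ∈ cd M Op ↔ s ∈ Op := fun s => by simp [mem_cd_PM, cd_inj]
  have b1 : ∀ x l q, (∀ φ ∈ l, φ ∈ Φ) → cd M (B x l q) ∈ cd M Op := fun x l q a =>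
    (m _).2 fun y hy => by
      obtain ⟨r, r1, r2⟩ := exists_slack _ _ l hy
      exact ⟨l, a, r, r1, fun z hz φ e => by
        linarith [norm_sub_le_norm_sub_add_norm_sub (φ.fn z) (φ.fn y) (φ.fn x), r2 φ e, hz φ e]⟩
  have b2 : ∀ x l (q : ℚ), 0 < q → x.1 ∈ cd M (B x l q) := fun x l q a =>
    mem_cd.2 fun φ _ => by simpa using a
  have ex : ∀ U ∈ cd M Op, ∃ s ∈ Op, cd M s = U := fun U => mem_cd_PM.1
  refine ⟨cd M Op, ⟨cd_mem _, ⟨fun U a => ?_, ?_, fun U a V b => ?_, fun S a b => ?_⟩,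
    fun x hx y hy e => ?_, fun x hx y hy U a b => ?_, fun x hx U a y b e => ?_⟩, ?_⟩
  · obtain ⟨s, -, rfl⟩ := ex U a
    exact cd_sub s
  · exact cd_eq (s := B 0 [] 1) (fun _ => id) (fun x => iff_of_true (by simp [B]) x.2) ▸
      b1 0 [] 1 (by simp)
  · obtain ⟨s, c, rfl⟩ := ex U a
    obtain ⟨t, d, rfl⟩ := ex V b
    rw [← cd_eq (s := PM.of (fun x => x ∈ s ∧ x ∈ t) (by fun_prop)) (U := cd M s ∩ cd M t)
      (fun z e => cd_sub s (ZFSet.mem_inter.1 e).1) (fun x => by simp [mem_cd]), m]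
    intro x hx
    obtain ⟨l, c1, q, c2, c3⟩ := c x hx.1
    obtain ⟨l', d1, q', d2, d3⟩ := d x hx.2
    exact ⟨l ++ l', List.forall_mem_append.2 ⟨c1, d1⟩, min q q', lt_min c2 d2, fun y hy =>
      ⟨c3 y fun φ e => (hy φ (List.mem_append_left _ e)).trans_le (mod_cast min_le_left _ _),
        d3 y fun φ e => (hy φ (List.mem_append_right _ e)).trans_le (mod_cast min_le_right _ _)⟩⟩
  · obtain ⟨s, e⟩ := exists_pm (A := A) (Mdl.zf.union S a) fun z hz => by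
      obtain ⟨U, c, d⟩ := ZFSet.mem_sUnion.1 hz
      obtain ⟨s, -, rfl⟩ := ex U (b c)
      exact cd_sub s d
    rw [← e, m]
    intro x hx
    obtain ⟨U, c, d⟩ := ZFSet.mem_sUnion.1 (e ▸ mem_cd.2 hx)
    obtain ⟨t, f, rfl⟩ := ex U (b c)
    obtain ⟨l, c1, q, c2, c3⟩ := f x (mem_cd.1 d)
    exact ⟨l, c1, q, c2, fun y hy => mem_cd.1 (e ▸ ZFSet.mem_sUnion.2 ⟨_, c, mem_cd.2 (c3 y hy)⟩)⟩
  · lift x to ZE A using hx
    lift y to ZE A using hy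
    obtain ⟨φ, c, d⟩ : ∃ φ ∈ Φ, φ.fn x - φ.fn y ≠ 0 := by
      by_contra c
      push Not at c
      exact e (congrArg _ (sub_eq_zero.1 (h.sep (x - y) trivial fun φ a =>
        (map_sub (h.hm φ a).hom x y).trans (c φ a))))
    obtain ⟨q, q1, q2⟩ := exists_rat_btwn (half_pos (norm_pos_iff.2 d))
    refine ⟨_, b1 x [φ] q (by simpa using c), _, b1 y [φ] q (by simpa using c),
      b2 _ _ _ (mod_cast q1), b2 _ _ _ (mod_cast q1), fun z a b => ?_⟩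
    lift z to ZE A using cd_sub _ a
    linarith [norm_sub_le_norm_sub_add_norm_sub (φ.fn x) (φ.fn z) (φ.fn y), norm_sub_rev (φ.fn x)
      (φ.fn z), mem_cd.1 a φ (by simp), mem_cd.1 b φ (by simp)]
  · lift x to ZE A using hx
    lift y to ZE A using hy
    obtain ⟨s, c, rfl⟩ := ex U a
    obtain ⟨l, c1, q, c2, c3⟩ := c (x + y) (mem_cd.1 (ea x y ▸ b))
    refine ⟨_, b1 x l (q / 2) c1, _, b1 y l (q / 2) c1, b2 _ _ _ (half_pos c2),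
      b2 _ _ _ (half_pos c2), fun x' a y' b => ?_⟩
    lift x' to ZE A using cd_sub _ a
    lift y' to ZE A using cd_sub _ b
    refine ea x' y' ▸ mem_cd.2 (c3 _ fun φ e => ?_)
    have a := mem_cd.1 a φ e
    have b := mem_cd.1 b φ e
    rw [h.hm φ (c1 φ e), h.hm φ (c1 φ e), add_sub_add_comm]
    push_cast at a b
    linarith [norm_add_le (φ.fn x' - φ.fn x) (φ.fn y' - φ.fn y)]
  · obtain ⟨s, c, rfl⟩ := ex U a
    lift x to ZE A using hx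
    lift y to ZE A using cd_sub _ b
    obtain ⟨l, c1, q, c2, c3⟩ := c y (mem_cd.1 b)
    refine ⟨_, b1 x l q c1, b2 _ _ _ c2, fun x' a y' b e' => ?_⟩
    lift x' to ZE A using cd_sub _ a
    lift y' to ZE A using b
    rw [← ea, ← eo] at e e'
    refine mem_cd.2 (c3 _ fun φ k => ?_)
    rw [eq_neg_of_add_eq_zero_right (a := x) (b := y) (Subtype.ext e),
      eq_neg_of_add_eq_zero_right (a := x') (b := y') (Subtype.ext e')]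
    change ‖(h.hm φ (c1 φ k)).hom _ - (h.hm φ (c1 φ k)).hom _‖ < q
    rw [map_neg, map_neg, neg_sub_neg, norm_sub_rev]
    exact mem_cd.1 a φ k
  obtain ⟨s, s1, s2⟩ := choice' (M := M) (R := fun (U : PM M (ZE A)) d => d ∈ D ∧ d ∈ U)
    (by fun_prop)
  have s3 : ∀ U ∈ Op, cd M U ≠ ∅ → s U ∈ D ∧ s U ∈ U := fun U a b => s2 U (by
    obtain ⟨x, hx⟩ := (ZFSet.eq_empty_or_nonempty _).resolve_left b
    lift x to ZE A using cd_sub _ hx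
    obtain ⟨l, c1, q, c2, c3⟩ := a x (mem_cd.1 hx)
    exact (h.dns x l c1 q (mod_cast c2)).imp fun d e => ⟨e.1, c3 d e.2⟩)
  let f : ZFSet → ZFSet := fun U =>
    if e : ∃ t : PM M (ZE A), cd M t = U then (s e.choose).1 else ∅
  have f1 : ∀ t, f (cd M t) = (s t).1 := fun t => by
    have e : ∃ u : PM M (ZE A), cd M u = cd M t := ⟨t, rfl⟩
    simp only [f, dif_pos e, cd_inj.1 e.choose_spec]
  have f2 : ∀ t : PM M (ZE A), cd M t ≠ ∅ ↔ ∃ x, x ∈ t := fun t =>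
    ⟨fun b => let ⟨x, hx⟩ := (ZFSet.eq_empty_or_nonempty _).resolve_left b
      ⟨⟨x, cd_sub _ hx⟩, mem_cd.1 hx⟩, fun ⟨x, hx⟩ e => ZFSet.notMem_empty _ (e ▸ mem_cd.2 hx)⟩
  refine ⟨f, ⟨cd M (PM.of (M := M) (fun p : PM M (ZE A) × ZE A => p.1 ∈ Op ∧ (∃ x, x ∈ p.1) ∧
    s p.1 = p.2) (by fun_prop)), cd_mem _, fun z => mem_cd_PM.trans ⟨?_, ?_⟩⟩, fun U a b => ?_,
    fun U a b => ?_⟩
  · rintro ⟨⟨t, _⟩, ⟨a, b, (rfl : s t = _)⟩, rfl⟩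
    exact ⟨_, (m _).2 a, (f2 _).2 b, congrArg (ZFSet.pair _) (f1 t).symm⟩
  · rintro ⟨U, a, b, rfl⟩
    obtain ⟨t, c, rfl⟩ := ex U a
    exact ⟨(t, s t), ⟨c, (f2 t).1 b, rfl⟩, congrArg (ZFSet.pair _) (f1 t).symm⟩
  · obtain ⟨t, c, rfl⟩ := ex U a
    exact f1 t ▸ mem_cd.2 (s3 t c b).2
  · choose t t1 t2 using fun n => ex _ (b n).1
    obtain rfl : (fun n => cd M (t n)) = U := funext t2
    have := seqIn_iff.1 a
    obtain ⟨y, -, φ, y1, y2, y3⟩ := h.seq (fun n => s (t n)) (by fun_prop)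
      fun n => (s3 _ (t1 n) (b n).2).1
    refine ⟨_, y.2, φ, y1, seqIn_iff.2 y2, fun V c d => ?_⟩
    obtain ⟨V, e, rfl⟩ := ex V c
    obtain ⟨l, c1, q, c2, c3⟩ := e y (mem_cd.1 d)
    refine eventually_atTop.1 (((eventually_all_finite l.finite_toSet).2 fun ψ k =>
      (Metric.tendsto_nhds.1 (y3 ψ (c1 ψ k)) q (mod_cast c2))).mono fun n k => ?_)
    exact f1 _ ▸ mem_cd.2 (c3 _ fun ψ j => dist_eq_norm (ψ.fn _) _ ▸ k ψ j)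

omit ea eo

theorem q1 (M : ZFSet.{0}) [Mdl M] [Chc M] (gch : GCH M) (kh : KH M) (G : ZFSet.{0})
    (add : ZFSet.{0} → ZFSet.{0} → ZFSet.{0}) (o : ZFSet.{0}) (h : AbGrp M G add o)
    (h' : ∃ τ, GroupTop M G add o τ ∧ Pseudocompact M G τ) :
    ∃ τ, GroupTop M G add o τ ∧ WinsSsp M G τ := by
  obtain ⟨τ, h1, h2⟩ := h'
  obtain ⟨_, ea, eo⟩ := exists_grp (A := ⟨G, h.mem⟩) h
  have := mg ea h
  exact final ea eo ((ns ea eo h1 h2).main gch kh)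

end Pool.Agent.Lib.MP_fe6d4f_gt.Pos
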