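import Pool.Agent.Lib.MP_fe6d4f_gt.Pos.Grp

/-!
A small dense sequentially compact subset of a large Cantor cube inside `M`.
-/

namespace Pool.Agent.Lib.MP_fe6d4f_gt.Pos

open Function Filter Pool.Agent.Shared.InModel

variable {M : ZFSet.{0}} [Mdl M] [Chc M]

theorem exists_sub {γ : Type*} [Cd M γ] [Nonempty γ] (h : Le M γ ℕ) (Z : γ → ℕ → Prop)
    (hZ : MF M fun p : γ × ℕ => Z p.1 p.2) : ∃ φ : ℕ → ℕ, StrictMono φ ∧ MF M φ ∧
      ∀ c, (∀ᶠ n in atTop, Z c (φ n)) ∨ ∀ᶠ n in atTop, ¬ Z c (φ n) := by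
  obtain ⟨σ, h1, h2⟩ := h.surj
  obtain ⟨x, h3, -, h4⟩ := exists_chain (M := M) (P := fun p : PM M ℕ × ℕ => ∀ m, ∃ n, m < n ∧ n ∈ p.1)
    (R := fun c p p' => p.2 < p'.2 ∧ p'.2 ∈ p'.1 ∧ (∀ n, n ∈ p'.1 → n ∈ p.1) ∧
      ((∀ n, n ∈ p'.1 → Z (σ c) n) ∨ ∀ n, n ∈ p'.1 → ¬ Z (σ c) n)) (by fun_prop) (by fun_prop)
    (a := (PM.of (fun _ => True) (by fun_prop), 0)) (fun m => ⟨m + 1, m.lt_succ_self, trivial⟩)
    fun c p hp => by
      by_cases e : ∀ m, ∃ n, m < n ∧ n ∈ p.1 ∧ Z (σ c) n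
      · obtain ⟨n, a, b⟩ := e p.2
        exact ⟨(PM.of (fun n => n ∈ p.1 ∧ Z (σ c) n) (by fun_prop), n), e, a, b, fun _ h => h.1,
          Or.inl fun _ h => h.2⟩
      · push Not at e
        obtain ⟨m, hm⟩ := e
        have e : ∀ k, ∃ n, k < n ∧ n ∈ p.1 ∧ ¬ Z (σ c) n := fun k =>
          let ⟨n, a, b⟩ := hp (max m k)
          ⟨n, (max_lt_iff.1 a).2, b, hm n (max_lt_iff.1 a).1 b⟩
        obtain ⟨n, a, b⟩ := e p.2
        exact ⟨(PM.of (fun n => n ∈ p.1 ∧ ¬ Z (σ c) n) (by fun_prop), n), e, a, b, fun _ h => h.1,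
          Or.inr fun _ h => h.2⟩
  have h5 : ∀ c n, c ≤ n → ∀ k ∈ (x n).1, k ∈ (x c).1 := fun c n e => by
    induction e with
    | refl => exact fun _ => id
    | step _ ih => exact fun k hk => ih k ((h4 _).2.2.2.1 k hk)
  refine ⟨fun n => (x (n + 1)).2, strictMono_nat_of_lt_succ fun n => (h4 _).2.1, by fun_prop,
    fun c => ?_⟩
  obtain ⟨c, rfl⟩ := h2 c
  exact (h4 c).2.2.2.2.imp
    (fun e => eventually_atTop.2 ⟨c, fun n hn => e _ (h5 _ _ (by omega) _ (h4 n).2.2.1)⟩)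
    fun e => eventually_atTop.2 ⟨c, fun n hn => e _ (h5 _ _ (by omega) _ (h4 n).2.2.1)⟩

theorem Good.pm {Λ : Type*} [Cd M Λ] (h : Good M Λ) : Le M (PM M ℕ) Λ := by
  classical
  have := infinite_of_not_le h.1
  refine Le.trans ⟨FM.lam (fun (s : PM M ℕ) n => decide (n ∈ s)) (by fun_prop), MF.fmlam MF.id',
    fun s t e => PM.ext' fun n => ?_⟩ ((Le.bool.trans Le.nat).fm.trans h.2)
  simpa using congrArg (fun f => f.fn n) e

theorem exists_space (kh : KH M) (Λ : Type 1) [Cd M Λ] (h : Good M Λ) :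
    ∃ Y : PM M (FM M (PM M Λ × Λ × ℕ) Bool), Le M Y.El Λ ∧
      (∀ l : List (FM M (PM M Λ × Λ × ℕ) Bool), (∀ y ∈ l, y ∈ Y) →
        ∃ ξ, ∀ y ∈ l, ∀ X n, y.fn (X, ξ, n) = false) ∧
      (∀ (l : List (PM M Λ × Λ)) (w : PM M Λ × Λ → FM M ℕ Bool),
        ∃ y ∈ Y, ∀ p ∈ l, ∀ n, y.fn (p.1, p.2, n) = (w p).fn n) ∧
      ∀ y : ℕ → FM M (PM M Λ × Λ × ℕ) Bool, MF M y → (∀ n, y n ∈ Y) →
        ∃ z ∈ Y, ∃ φ : ℕ → ℕ, StrictMono φ ∧ MF M φ ∧
          ∀ j, ∀ᶠ n in atTop, (y (φ n)).fn j = z.fn j := by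
  classical
  have := infinite_of_not_le h.1
  obtain ⟨tr, h1, h2, h3⟩ := kh Λ h.1
  let OK : FM M ℕ Λ → FM M (PM M Λ × Λ × ℕ) Bool → Prop := fun A y =>
    (∀ X ξ n, y.fn (X, ξ, n) = true → ∃ k, A.fn k = ξ) ∧
      ∀ X X', (∀ k, A.fn k ∈ tr X ↔ A.fn k ∈ tr X') → ∀ ξ n, y.fn (X, ξ, n) = y.fn (X', ξ, n)
  have hO : MF M fun p : FM M ℕ Λ × FM M (PM M Λ × Λ × ℕ) Bool => OK p.1 p.2 := by
    simp only [OK]; fun_prop
  let Y : PM M (FM M (PM M Λ × Λ × ℕ) Bool) := PM.of (fun y => ∃ A, OK A y) (by fun_prop)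
  have comb : ∀ y : ℕ → FM M (PM M Λ × Λ × ℕ) Bool, MF M y → (∀ n, y n ∈ Y) →
      ∃ A, ∀ n, OK A (y n) := fun y hy hY => by
    obtain ⟨A, a1, a2⟩ := choice (M := M) (R := fun n A => OK A (y n)) (by fun_prop) hY
    refine ⟨⟨fun k => (A k.unpair.1).fn k.unpair.2, by fun_prop⟩, fun n => ⟨fun X ξ k e => ?_,
      fun X X' e => (a2 n).2 X X' fun k => by simpa using e (Nat.pair n k)⟩⟩
    obtain ⟨j, hj⟩ := (a2 n).1 X ξ k e
    exact ⟨Nat.pair n j, by simpa using hj⟩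
  have key : ∀ (A : FM M ℕ Λ) (en : PM M Λ → ℕ), (∀ X Y, en X = en Y → ∀ n,
      (A.fn n ∈ tr X ↔ A.fn n ∈ tr Y)) → ∀ y, OK A y → ∀ X ξ k, (∃ X', en X' = en X ∧
      y.fn (X', ξ, k) = true) ↔ y.fn (X, ξ, k) = true := fun A en e y hy X ξ k =>
    ⟨fun ⟨X', a, b⟩ => (hy.2 _ _ (e _ _ a) ξ k).symm.trans b, fun a => ⟨X, rfl, a⟩⟩
  have c3 : Le M (ℕ × ℕ × ℕ) ℕ := Le.refl.pr Le.sq
  refine ⟨Y, ?_, fun l hl => ?_, fun l w => ?_, fun y hy hY => ?_⟩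
  · have : Nonempty (PM M (ℕ × ℕ × ℕ)) := ⟨PM.of (fun _ => True) (by fun_prop)⟩
    refine (Le.union (s := PM.lam (fun A (y : Y.El) => OK A y.v) (by fun_prop)) (MF.pmlam MF.id')
      (fun y => y.mem) fun A => ?_).trans (h.2.pr (c3.pm.trans h.pm))
    obtain ⟨en, e1, e2⟩ := h3 A
    let cde := PM.lam (M := M) (fun (y : FM M (PM M Λ × Λ × ℕ) Bool) (p : ℕ × ℕ × ℕ) =>
      ∃ X, en X = p.1 ∧ y.fn (X, A.fn p.2.1, p.2.2) = true) (by fun_prop)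
    have aux : ∀ y y', OK A y → OK A y' → cde y = cde y' → ∀ p, y.fn p = true → y'.fn p = true := by
      rintro y y' a b e ⟨X, ξ, k⟩ c
      obtain ⟨j, rfl⟩ := a.1 X ξ k c
      exact (key A en e2 y' b _ _ _).1 ((congrArg (fun s => (en X, j, k) ∈ s) e).mp ⟨X, rfl, c⟩)
    exact ⟨fun y => cde y.v.v, by simp only [cde]; fun_prop, fun y y' e =>
      PM.El.inj (PM.El.inj (FM.ext (funext fun p => Bool.eq_iff_iff.2
        ⟨aux _ _ y.mem y'.mem e p, aux _ _ y'.mem y.mem e.symm p⟩)))⟩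
  · let o : FM M (PM M Λ × Λ × ℕ) Bool := ⟨fun _ => false, by fun_prop⟩
    obtain ⟨A, hA⟩ := comb (fun n => l.getD n o) (by fun_prop) fun n => by
      rw [List.getD_eq_getElem?_getD]
      cases e : l[n]? with
      | none => exact ⟨⟨fun _ => Classical.arbitrary Λ, by fun_prop⟩, by simp [OK, o]⟩
      | some y => exact hl y (List.mem_of_getElem? e)
    obtain ⟨ξ, hξ⟩ := not_forall.1 fun e => h.1 (Le.of_surj A.mf e)
    refine ⟨ξ, fun y hy X n => Bool.eq_false_iff.2 fun e => hξ ?_⟩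
    obtain ⟨i, hi⟩ := List.mem_iff_getElem?.1 hy
    exact (hA i).1 X ξ n (by simpa [hi] using e)
  · have : ∀ X X', ∃ ξ, (ξ ∈ tr X ↔ ξ ∈ tr X') → X = X' := fun X X' => by
      by_contra c
      push Not at c
      exact (c (Classical.arbitrary Λ)).2 (h2 (PM.ext' fun ξ => (c ξ).1))
    choose d hd using this
    let a : List Λ := l.map Prod.snd ++ l.flatMap fun p => l.map fun p' => d p.1 p'.1
    let L := l.map fun p => (p, w p)
    have ha : ∀ ξ ∈ a, ∃ k, a.getD k (Classical.arbitrary Λ) = ξ := fun ξ e =>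
      (List.mem_iff_getElem?.1 e).imp fun i hi => by simp [hi]
    refine ⟨⟨fun j => decide (∃ e, e ∈ L ∧ e.1.2 = j.2.1 ∧ (∀ ζ, ζ ∈ a → (ζ ∈ tr j.1 ↔ ζ ∈ tr e.1.1)) ∧
      e.2.fn j.2.2 = true), by fun_prop⟩, ⟨⟨fun k => a.getD k (Classical.arbitrary Λ), by fun_prop⟩,
      fun X ξ n e => ?_, fun X X' e ξ n => ?_⟩, fun p hp n => Bool.eq_iff_iff.2 ?_⟩
    · obtain ⟨_, b1, rfl, -⟩ := of_decide_eq_true e
      obtain ⟨p, b2, rfl⟩ := List.mem_map.1 b1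
      exact ha _ (List.mem_append_left _ (List.mem_map_of_mem b2))
    · refine decide_eq_decide.2 (exists_congr fun _ => and_congr_right fun _ => and_congr_right
        fun _ => and_congr_left fun _ => forall₂_congr fun ζ b => iff_congr ?_ Iff.rfl)
      obtain ⟨k, rfl⟩ := ha ζ b
      exact e k
    · rw [decide_eq_true_iff]
      refine ⟨?_, fun e => ⟨_, List.mem_map_of_mem hp, rfl, fun _ _ => Iff.rfl, e⟩⟩
      rintro ⟨_, b1, b2, b3, b4⟩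
      obtain ⟨p', b5, rfl⟩ := List.mem_map.1 b1
      rwa [show p = p' from Prod.ext (hd _ _ (b3 _ (List.mem_append_right _ (List.mem_flatMap.2
        ⟨p, hp, List.mem_map_of_mem b5⟩)))) b2.symm]
  · obtain ⟨A, hA⟩ := comb y hy hY
    obtain ⟨en, e1, e2⟩ := h3 A
    obtain ⟨φ, f1, f2, f3⟩ := exists_sub c3 (fun p n => ∃ X, en X = p.1 ∧
      (y n).fn (X, A.fn p.2.1, p.2.2) = true) (by fun_prop)
    let z : FM M (PM M Λ × Λ × ℕ) Bool :=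
      ⟨fun j => decide (∃ N, ∀ n, N ≤ n → (y (φ n)).fn j = true), by fun_prop⟩
    have hz : ∀ j, z.fn j = true ↔ ∀ᶠ n in atTop, (y (φ n)).fn j = true := fun j =>
      decide_eq_true_iff.trans eventually_atTop.symm
    refine ⟨z, ⟨A, fun X ξ k e => ?_, fun X X' e ξ k => ?_⟩, φ, f1, f2, ?_⟩
    · obtain ⟨n, hn⟩ := ((hz _).1 e).exists
      exact (hA _).1 X ξ k hn
    · simp only [z, fun n => (hA n).2 X X' e ξ k]
    · rintro ⟨X, ξ, k⟩
      have : (∀ᶠ n in atTop, (y (φ n)).fn (X, ξ, k) = true) ∨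
          ∀ᶠ n in atTop, ¬ (y (φ n)).fn (X, ξ, k) = true := by
        by_cases c : ∃ j, A.fn j = ξ
        · obtain ⟨j, rfl⟩ := c
          simpa only [key A en e2 _ (hA _)] using f3 (en X, j, k)
        · exact Or.inr (.of_forall fun n e => c ((hA _).1 X ξ k e))
      rcases this with c | c
      · rwa [(hz _).2 c]
      · refine c.mono fun n e => Bool.eq_iff_iff.2 (iff_of_false e fun e' => ?_)
        exact (c.and ((hz _).1 e')).exists.elim fun _ h => h.1 h.2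

end Pool.Agent.Lib.MP_fe6d4f_gt.Pos
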